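import Pool.Agent.Lib.KL.Limit

/-!
Shell counts (MP_ef2672): the factorial against the power of the radius, and the subexponential
factors.
-/

set_option autoImplicit false

namespace Pool.Agent.SH

open Filter Topology
open scoped Real Nat

/-- The upper Stirling bound. -/
lemma fact_le {k : ℕ} (hk : 1 ≤ k) :
    ((k ! : ℕ) : ℝ) ≤ Real.exp 1 * k * (k / Real.exp 1) ^ k := by
  obtain ⟨j, rfl⟩ : ∃ j, k = j + 1 := ⟨k - 1, by omega⟩
  have h1 : Stirling.stirlingSeq (j + 1) ≤ Stirling.stirlingSeq (0 + 1) :=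
    Stirling.stirlingSeq'_antitone (Nat.zero_le j)
  rw [zero_add, Stirling.stirlingSeq_one, Stirling.stirlingSeq] at h1
  have hj : (1 : ℝ) ≤ ((j + 1 : ℕ) : ℝ) := by exact_mod_cast hk
  set x : ℝ := ((j + 1 : ℕ) : ℝ) with hx
  have hp : 0 < (x / Real.exp 1) ^ (j + 1) := by positivity
  have hs : 0 < √(2 * x) := Real.sqrt_pos.2 (by linarith)
  rw [div_le_iff₀ (by positivity)] at h1
  refine h1.trans ?_
  have h2 : √(2 * x) = √2 * √x := Real.sqrt_mul (by norm_num) x
  have h3 : √x ≤ x := by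
    rw [Real.sqrt_le_left (by linarith)]
    nlinarith
  have h4 : Real.exp 1 / √2 * (√(2 * x) * (x / Real.exp 1) ^ (j + 1)) =
      Real.exp 1 * √x * (x / Real.exp 1) ^ (j + 1) := by
    rw [h2]
    have : √2 ≠ 0 := by positivity
    field_simp
  rw [h4]
  gcongr

/-- The lower Stirling bound. -/
lemma le_fact (k : ℕ) : ((k : ℝ) / Real.exp 1) ^ k ≤ ((k ! : ℕ) : ℝ) := by
  have h := Real.pow_div_factorial_le_exp (x := (k : ℝ)) (by positivity) k
  rw [div_le_iff₀ (by positivity)] at h
  rw [div_pow, div_le_iff₀ (by positivity), ← Real.exp_nat_mul, mul_one, mul_comm]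
  exact h

/-- Subexponential factors. -/
theorem sub_exp (C : ℝ) (C' : ℕ) {ξ : ℝ} (hξ : 0 < ξ) : ∀ᶠ n : ℕ in atTop,
    Real.exp (C * √n + C) * ((n : ℝ) + 1) ^ C' ≤ Real.exp (ξ * n) := by
  have h1 : Tendsto (fun n : ℕ => C * (1 / √(n : ℝ)) + C * (1 / (n : ℝ)) +
      C' * (1 / (n : ℝ) + Real.log n / √n * (1 / √n))) atTop
      (𝓝 (C * 0 + C * 0 + C' * (0 + 0 * 0))) :=
    ((Pool.Agent.KL.tendsto_inv_sqrt.const_mul C).add
      (Pool.Agent.KL.tendsto_inv_n.const_mul C)).add
      ((Pool.Agent.KL.tendsto_inv_n.add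
        (Pool.Agent.KL.tendsto_log_div_sqrt.mul Pool.Agent.KL.tendsto_inv_sqrt)).const_mul _)
  have h0 : C * 0 + C * 0 + (C' : ℝ) * (0 + 0 * 0) = 0 := by ring
  rw [h0] at h1
  filter_upwards [h1.eventually_lt_const hξ, eventually_ge_atTop 1] with n hn h1n
  have hn1 : (1 : ℝ) ≤ n := by exact_mod_cast h1n
  have hn0 : (0 : ℝ) < n := by linarith
  have hs : 0 < √(n : ℝ) := Real.sqrt_pos.2 hn0
  have hss : √(n : ℝ) * √n = n := Real.mul_self_sqrt hn0.le
  have h2 : Real.log ((n : ℝ) + 1) ≤ 1 + Real.log n := by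
    have h3 : (n : ℝ) + 1 ≤ Real.exp 1 * n := by
      have := Real.add_one_le_exp (1 : ℝ)
      nlinarith
    have h4 := Real.log_le_log (by linarith) h3
    rwa [Real.log_mul (Real.exp_pos 1).ne' hn0.ne', Real.log_exp] at h4
  have h5 : ((n : ℝ) + 1) ^ C' ≤ Real.exp (C' * (1 + Real.log n)) := by
    rw [← Real.rpow_natCast, Real.rpow_def_of_pos (by linarith)]
    refine Real.exp_le_exp.2 ?_
    rw [mul_comm]
    exact mul_le_mul_of_nonneg_left h2 (Nat.cast_nonneg _)
  calc Real.exp (C * √n + C) * ((n : ℝ) + 1) ^ C'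
      ≤ Real.exp (C * √n + C) * Real.exp (C' * (1 + Real.log n)) := by gcongr
    _ = Real.exp (C * √n + C + C' * (1 + Real.log n)) := by rw [← Real.exp_add]
    _ ≤ Real.exp (ξ * n) := by
        refine Real.exp_le_exp.2 ?_
        have h6 := mul_le_mul_of_nonneg_right hn.le hn0.le
        refine le_trans (le_of_eq ?_) h6
        have h7 : Real.log n / √n * (1 / √n) = Real.log n / n := by
          rw [div_mul_div_comm, mul_one, hss]
        rw [h7]
        have h8 : 1 / √(n : ℝ) * n = √n := by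
          rw [one_div, inv_mul_eq_div, div_eq_iff hs.ne', hss]
        have h9 : (C * (1 / √(n : ℝ)) + C * (1 / (n : ℝ)) + C' * (1 / (n : ℝ) + Real.log n / n)) * n =
            C * (1 / √(n : ℝ) * n) + C * (1 / (n : ℝ) * n) +
              C' * (1 / (n : ℝ) * n + Real.log n / n * n) := by ring
        rw [h9, h8, one_div_mul_cancel hn0.ne', div_mul_cancel₀ _ hn0.ne', mul_one]

/-- The ratio of the value at the origin and the integral. -/
theorem asRatio {ξ : ℝ} (hξ : 0 < ξ) : ∀ᶠ n : ℕ in atTop,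
    π * (9 * π * Real.exp 9 * (n : ℝ) ^ 0 * Real.exp (6 * √n) / π ^ (2 * n)) ^ ((2 : ℝ) / (4 * n)) ≤
      Real.exp ξ := by
  have h := (Pool.Agent.KL.tendsto_ratio (B := 9 * π * Real.exp 9) (by positivity) 0 6).const_mul π
  have h1 : π * (1 / π) = 1 := by
    have := Real.pi_pos.ne'
    field_simp
  rw [h1] at h
  have h2 : 1 < Real.exp ξ := Real.one_lt_exp_iff.2 hξ
  filter_upwards [h.eventually_lt_const h2] with n hn
  exact hn.le

/-- The factorial against the power of the radius. -/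
theorem asG {ξ : ℝ} (hξ : 0 < ξ) : ∀ᶠ n : ℕ in atTop, ∀ R : ℝ, 4 * n / π ≤ R →
    R ≤ 2 / Real.sin (π / (2 * n)) + 23 * √n * (1 + Real.log n) →
      (π / (2 * Real.exp 1)) ^ (2 * n) * Real.exp (-(ξ * n)) ≤
        (((2 * n - 1) ! : ℕ) : ℝ) / R ^ (2 * n - 1) ∧
      (((2 * n - 1) ! : ℕ) : ℝ) / R ^ (2 * n - 1) ≤
        (π / (2 * Real.exp 1)) ^ (2 * n) * Real.exp (ξ * n) := by
  have hπ := Real.pi_pos
  have hrad := Pool.Agent.KL.tendsto_radius 23
  have h1 : 1 / π < 1 / π * Real.exp (ξ / 4) := by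
    have : 1 < Real.exp (ξ / 4) := Real.one_lt_exp_iff.2 (by linarith)
    have h2 : 0 < 1 / π := by positivity
    nlinarith
  filter_upwards [hrad.eventually_lt_const h1, sub_exp 4 1 (ξ := ξ / 2) (by linarith),
    eventually_ge_atTop 1] with n hn hsub h1n R hR1 hR2
  have hn1 : (1 : ℝ) ≤ n := by exact_mod_cast h1n
  have hn0 : (0 : ℝ) < n := by linarith
  have he := Real.exp_pos (1 : ℝ)
  have he2 : (2 : ℝ) ≤ Real.exp 1 := by
    have := Real.add_one_le_exp (1 : ℝ)
    linarith
  set k : ℕ := 2 * n - 1 with hk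
  have hk1 : 1 ≤ k := by omega
  have hkn : 2 * n = k + 1 := by omega
  have hkR : (k : ℝ) + 1 = 2 * n := by
    have : ((2 * n : ℕ) : ℝ) = ((k + 1 : ℕ) : ℝ) := by rw [hkn]
    push_cast at this
    linarith
  have hk0 : (1 : ℝ) ≤ k := by exact_mod_cast hk1
  have hR0 : 0 < R := lt_of_lt_of_le (by positivity) hR1
  set b : ℝ := π / (2 * Real.exp 1) with hb
  have hb0 : 0 < b := by positivity
  have hb1 : b ≤ 1 := by
    rw [hb, div_le_one (by positivity)]
    have := Real.pi_le_four
    linarith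
  -- the subexponential factor in the form needed
  have hsub2 : Real.exp 4 * (2 * n) ≤ Real.exp (ξ / 2 * n) := by
    refine le_trans ?_ hsub
    have h3 : Real.exp 4 * Real.exp 4 ≤ Real.exp (4 * √n + 4) := by
      rw [← Real.exp_add]
      refine Real.exp_le_exp.2 ?_
      have : 1 ≤ √(n : ℝ) := by
        rw [Real.one_le_sqrt]
        exact hn1
      linarith
    have h4 : (2 : ℝ) ≤ Real.exp 4 := by
      have := Real.add_one_le_exp (4 : ℝ)
      linarith
    rw [pow_one]
    calc Real.exp 4 * (2 * n) ≤ Real.exp 4 * (Real.exp 4 * ((n : ℝ) + 1)) := by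
          refine mul_le_mul_of_nonneg_left ?_ (Real.exp_pos 4).le
          nlinarith
      _ = Real.exp 4 * Real.exp 4 * ((n : ℝ) + 1) := by ring
      _ ≤ _ := mul_le_mul_of_nonneg_right h3 (by linarith)
  have hexp4 : (1 : ℝ) ≤ Real.exp 4 := Real.one_le_exp (by norm_num)
  constructor
  · have h3 := le_fact k
    have h4 : R ≤ 4 * n / π * Real.exp (ξ / 4) := by
      refine hR2.trans ?_
      rw [div_lt_iff₀ (by positivity)] at hn
      refine hn.le.trans (le_of_eq ?_)
      ring
    have h5 : b * (k / (2 * n)) * Real.exp (-(ξ / 4)) ≤ k / Real.exp 1 / R := by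
      rw [le_div_iff₀ hR0]
      calc b * (k / (2 * n)) * Real.exp (-(ξ / 4)) * R
          ≤ b * (k / (2 * n)) * Real.exp (-(ξ / 4)) * (4 * n / π * Real.exp (ξ / 4)) := by
            gcongr
        _ = b * (k / (2 * n)) * (4 * n / π) * (Real.exp (-(ξ / 4)) * Real.exp (ξ / 4)) := by ring
        _ = k / Real.exp 1 := by
            rw [← Real.exp_add, neg_add_cancel, Real.exp_zero, mul_one, hb]
            field_simp
            ring
    have h6 : 1 / (2 * (n : ℝ)) ≤ (k / (2 * n)) ^ k := by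
      have h7 := one_add_mul_le_pow (a := -(1 / (2 * (n : ℝ)))) (by
        have : 1 / (2 * (n : ℝ)) ≤ 1 := by
          rw [div_le_one (by positivity)]; linarith
        linarith) k
      have h8 : (1 : ℝ) + -(1 / (2 * (n : ℝ))) = k / (2 * n) := by
        rw [← hkR]
        field_simp
        ring
      rw [h8] at h7
      refine le_trans (le_of_eq ?_) h7
      rw [← hkR]
      field_simp
      ring
    have h9 : Real.exp (-(ξ / 2 * n)) ≤ Real.exp (-(ξ / 4)) ^ k := by
      rw [← Real.exp_nat_mul]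
      refine Real.exp_le_exp.2 ?_
      nlinarith
    have h10 : Real.exp (-(ξ * n)) ≤ 1 / (2 * n) * Real.exp (-(ξ / 2 * n)) := by
      have h11 : Real.exp (-(ξ * n)) = Real.exp (-(ξ / 2 * n)) * Real.exp (-(ξ / 2 * n)) := by
        rw [← Real.exp_add]
        congr 1
        ring
      rw [h11]
      refine mul_le_mul_of_nonneg_right ?_ (Real.exp_pos _).le
      rw [Real.exp_neg, ← one_div]
      refine one_div_le_one_div_of_le (by positivity) ?_
      refine le_trans ?_ hsub2
      nlinarith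
    calc b ^ (2 * n) * Real.exp (-(ξ * n)) ≤ b ^ k * (1 / (2 * n) * Real.exp (-(ξ / 2 * n))) := by
          refine mul_le_mul ?_ h10 (Real.exp_pos _).le (by positivity)
          exact pow_le_pow_of_le_one hb0.le hb1 (by omega)
      _ ≤ b ^ k * ((k / (2 * n)) ^ k * Real.exp (-(ξ / 4)) ^ k) := by
          gcongr
      _ = (b * (k / (2 * n)) * Real.exp (-(ξ / 4))) ^ k := by
          rw [mul_pow, mul_pow]; ring
      _ ≤ (k / Real.exp 1 / R) ^ k := pow_le_pow_left₀ (by positivity) h5 k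
      _ = (k / Real.exp 1) ^ k / R ^ k := by rw [div_pow]
      _ ≤ _ := by gcongr
  · have h3 := fact_le hk1
    have h4 : (k / Real.exp 1) / R ≤ b := by
      rw [div_le_iff₀ hR0, hb]
      calc (k : ℝ) / Real.exp 1 ≤ 2 * n / Real.exp 1 := by gcongr; linarith
        _ = π / (2 * Real.exp 1) * (4 * n / π) := by
            field_simp
            ring
        _ ≤ _ := by gcongr
    have h5 : Real.exp 1 * k ≤ b * Real.exp (ξ * n) := by
      have h6 : 1 / Real.exp 1 ≤ b := by
        rw [hb, div_le_div_iff₀ he (by positivity)]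
        have := Real.pi_gt_three
        nlinarith
      have h7 : Real.exp 1 * Real.exp 1 * k ≤ Real.exp (ξ * n) := by
        have h8 : Real.exp (ξ / 2 * n) ≤ Real.exp (ξ * n) := by
          refine Real.exp_le_exp.2 ?_
          nlinarith
        have h9 : Real.exp 1 * Real.exp 1 ≤ Real.exp 4 := by
          rw [← Real.exp_add]
          exact Real.exp_le_exp.2 (by norm_num)
        nlinarith
      calc Real.exp 1 * k = 1 / Real.exp 1 * (Real.exp 1 * Real.exp 1 * k) := by
            field_simp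
        _ ≤ b * Real.exp (ξ * n) := by gcongr
    calc (((k) ! : ℕ) : ℝ) / R ^ k ≤ Real.exp 1 * k * (k / Real.exp 1) ^ k / R ^ k := by gcongr
      _ = Real.exp 1 * k * ((k / Real.exp 1) / R) ^ k := by rw [div_pow _ R]; ring
      _ ≤ b * Real.exp (ξ * n) * b ^ k := by gcongr
      _ = b ^ (2 * n) * Real.exp (ξ * n) := by rw [hkn, pow_succ]; ring

end Pool.Agent.SH
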