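import Pool.Agent.Lib.SH.Kiss
import Pool.Agent.Lib.MP_ef2672_gt_Over.ShortAuto

/-!
MP_ef2672, shell counts: assembly of the theorem from `Up8` and `Low8`.
-/

set_option autoImplicit false

namespace Pool.Agent.SH

open Pool.Agent.Lib.MP_ef2672_gt_Tauber Pool.Agent.Lib.EF_h73 MeasureTheory Filter Topology

theorem assemble (hU : Up8) (hL : Low8) :
    (∀ ε S : ℝ, 0 < ε → 1 ≤ S → ∀ᶠ n : ℕ in atTop, ∀ A : Matrix (Fin n) (Fin n) ℝ, A.det ≠ 0 →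
      ∀ s : ℝ, 1 ≤ s → s ≤ S →
        ({w : Fin n → ℤ | w ≠ 0 ∧ normSq A w ≤ s * minSq A}.ncard : ℝ) ≤
          (2 * Real.exp 1 / Real.pi * s) ^ ((n : ℝ) / 2) * Real.exp (ε * n)) ∧
    (∀ᶠ n : ℕ in atTop, ∀ A : Matrix (Fin n) (Fin n) ℝ, A.det ≠ 0 →
      ({w : Fin n → ℤ | w ≠ 0 ∧ normSq A w = minSq A}.ncard : ℝ) ≤
        (2 : ℝ) ^ (0.3957 * (n : ℝ))) ∧
    (∀ ε S : ℝ, 0 < ε → 1 ≤ S → ∃ δ : ℝ, 0 < δ ∧ ∀ᶠ n : ℕ in atTop,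
      ∀ A : Matrix (Fin n) (Fin n) ℝ, A.det ≠ 0 → (1 / Real.pi ^ 2 - δ) * n ≤ inv A →
      ∀ s : ℝ, 1 ≤ s → s ≤ S →
        (2 * Real.exp 1 / Real.pi * s) ^ ((n : ℝ) / 2) * Real.exp (-(ε * n)) ≤
          nShort A ((1 + ε) * s * minSq A)) ∧
    (∀ ε : ℝ, 0 < ε → ∃ δ : ℝ, 0 < δ ∧ ∀ᶠ n : ℕ in atTop, ∀ A : Matrix (Fin n) (Fin n) ℝ,
      A.det ≠ 0 → (∀ s : ℝ, 1 ≤ s → s < 3.3 →
        (nShort A (s * minSq A) : ℝ) ≤ (4 / (4 - s)) ^ ((n : ℝ) / 2) * Real.exp (δ * n)) →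
      inv A ≤ (c0 + ε) * n) ∧
    (Tendsto c atTop (𝓝 c0) ↔ ∀ ε : ℝ, 0 < ε → ∀ᶠ n : ℕ in atTop,
      ∃ A : Matrix (Fin n) (Fin n) ℝ, A.det ≠ 0 ∧ (1 - ε) * gamma n ≤ inv A ∧
        ∀ s : ℝ, 1 ≤ s → s < 3.3 →
          (nShort A (s * minSq A) : ℝ) ≤ s ^ ((n : ℝ) / 2) * Real.exp (ε * n)) :=
  have h := upper_of_up8 hU
  ⟨upper_le h, kissing h, lower_of_low8 hL,
    Pool.Agent.Lib.MP_ef2672_gt_Over.Shell.lean_upper' h,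
    Pool.Agent.Lib.MP_ef2672_gt_Over.Shell.leanIff' h⟩

end Pool.Agent.SH
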