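import Pool.Agent.Lib.SH.Weighted

/-!
Shell counts (MP_ef2672): small factors.
-/

set_option autoImplicit false

open MeasureTheory Filter Topology
open scoped Real

namespace Pool.Agent.SH

open Pool.Agent.KL Pool.Agent.Lib.MP_ef2672_gt_Tauber

lemma sub_lin (a b c : ℝ) {ξ : ℝ} (hξ : 0 < ξ) :
    ∀ᶠ n : ℕ in atTop, a * √n + b + c * Real.log n ≤ ξ * n := by
  have h1 : Tendsto (fun n : ℕ => a * (1 / √(n : ℝ)) + b * (1 / (n : ℝ)) +
      c * (Real.log n / √(n : ℝ) * (1 / √(n : ℝ)))) atTop (𝓝 (a * 0 + b * 0 + c * (0 * 0))) :=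
    ((tendsto_inv_sqrt.const_mul a).add (tendsto_inv_n.const_mul b)).add
      ((tendsto_log_div_sqrt.mul tendsto_inv_sqrt).const_mul c)
  have h2 : a * 0 + b * 0 + c * (0 * 0) = (0 : ℝ) := by ring
  rw [h2] at h1
  filter_upwards [h1.eventually_lt_const hξ, eventually_gt_atTop 0] with n hn h0
  have h0' : (0 : ℝ) < n := by exact_mod_cast h0
  have hs : 0 < √(n : ℝ) := Real.sqrt_pos.2 h0'
  have hss : √(n : ℝ) * √(n : ℝ) = n := Real.mul_self_sqrt h0'.le
  have e1 : a * √(n : ℝ) + b + c * Real.log n = (a * (1 / √(n : ℝ)) + b * (1 / (n : ℝ)) +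
      c * (Real.log n / √(n : ℝ) * (1 / √(n : ℝ)))) * n := by
    have e2 : 1 / √(n : ℝ) * n = √n := by
      rw [one_div_mul_eq_div, div_eq_iff hs.ne', hss]
    have e3 : Real.log n / √(n : ℝ) * (1 / √(n : ℝ)) * n = Real.log n := by
      rw [div_mul_div_comm, mul_one, hss, div_mul_cancel₀ _ h0'.ne']
    have e4 : b * (1 / (n : ℝ)) * n = b := by field_simp
    calc a * √(n : ℝ) + b + c * Real.log n = a * (1 / √(n : ℝ) * n) + b * (1 / (n : ℝ)) * n +
          c * (Real.log n / √(n : ℝ) * (1 / √(n : ℝ)) * n) := by rw [e2, e3, e4]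
      _ = _ := by ring
  rw [e1]
  exact mul_le_mul_of_nonneg_right hn.le h0'.le

/-- `R` is at most `exp ξ` times `4 n / π`. -/
lemma R_up {ξ : ℝ} (hξ : 0 < ξ) : ∀ᶠ n : ℕ in atTop, ∀ R : ℝ,
    R ≤ 2 / Real.sin (π / (2 * n)) + 23 * √n * (1 + Real.log n) → R ≤ Real.exp ξ * (4 * n / π) := by
  have h1 := tendsto_radius 23
  have h2 : 1 / π < Real.exp ξ * (1 / π) := by
    have := Real.add_one_lt_exp hξ.ne'
    have h3 : 0 < 1 / π := by positivity
    nlinarith
  filter_upwards [h1.eventually_lt_const h2, eventually_gt_atTop 0] with n hn h0 R hR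
  have h0' : (0 : ℝ) < n := by exact_mod_cast h0
  rw [div_lt_iff₀ (by positivity)] at hn
  refine hR.trans (hn.le.trans (le_of_eq ?_))
  ring

lemma R_two : ∀ᶠ n : ℕ in atTop, ∀ R : ℝ,
    R ≤ 2 / Real.sin (π / (2 * n)) + 23 * √n * (1 + Real.log n) → R ≤ 2 * n := by
  have h1 := tendsto_radius 23
  have h2 : 1 / π < 1 / 2 := by
    apply one_div_lt_one_div_of_lt (by norm_num)
    have := Real.pi_gt_three
    linarith
  filter_upwards [h1.eventually_lt_const h2, eventually_gt_atTop 0] with n hn h0 R hR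
  have h0' : (0 : ℝ) < n := by exact_mod_cast h0
  rw [div_lt_iff₀ (by positivity)] at hn
  linarith

/-- The margin is not exponentially small. -/
lemma mu_low {s : ℝ} (hs : 0 ≤ s) {ξ : ℝ} (hξ : 0 < ξ) : ∀ᶠ n : ℕ in atTop, ∀ R : ℝ,
    R ≤ 2 / Real.sin (π / (2 * n)) + 23 * √n * (1 + Real.log n) →
      Real.exp (-(ξ * n)) ≤ mu n R s := by
  filter_upwards [R_two, sub_lin (2 * s + 4) 17 2 hξ, eventually_gt_atTop 0] with n h1 h2 h0 R hR
  have h0' : (0 : ℝ) < n := by exact_mod_cast h0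
  have h1' : (1 : ℝ) ≤ n := by exact_mod_cast h0
  have hsq : 0 < √(n : ℝ) := Real.sqrt_pos.2 h0'
  have hss : √(n : ℝ) * √(n : ℝ) = n := Real.mul_self_sqrt h0'.le
  have hsn : √(n : ℝ) ≤ n := Real.sqrt_le_self_iff.2 (Or.inr h1')
  have hR2 := h1 R hR
  have e5 : Real.exp (-5) ≤ 3 / 320 := by
    have h3 : (2.7 : ℝ) ≤ Real.exp 1 := by
      have := Real.exp_one_gt_d9
      linarith
    have h4 : Real.exp 5 = Real.exp 1 ^ 5 := by
      rw [← Real.exp_nat_mul]
      norm_num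
    have h5 : (320 / 3 : ℝ) ≤ Real.exp 5 := by
      rw [h4]
      calc (320 / 3 : ℝ) ≤ 2.7 ^ 5 := by norm_num
        _ ≤ _ := pow_le_pow_left₀ (by norm_num) h3 5
    rw [Real.exp_neg, inv_le_comm₀ (Real.exp_pos _) (by norm_num)]
    linarith
  have e6 : Real.exp (-(2 * Real.log n)) = 1 / (n * n) := by
    have : 2 * Real.log (n : ℝ) = Real.log (n * n) := by
      rw [Real.log_mul h0'.ne' h0'.ne']
      ring
    rw [this, Real.exp_neg, Real.exp_log (by positivity), one_div]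
  have e7 : 1 / √n * (R * s) ≤ 2 * s * √n := by
    calc 1 / √n * (R * s) ≤ 1 / √n * (2 * n * s) := by gcongr
      _ = 2 * s * ((n : ℝ) / √n) := by ring
      _ = 2 * s * √n := by rw [(div_eq_iff hsq.ne').2 hss.symm]
  have e8 : Real.exp (-(ξ * n)) ≤
      Real.exp (-(2 * s * √n)) * Real.exp (-(4 * √n)) * (Real.exp (-5) * Real.exp (-(2 * Real.log n)) *
        Real.exp (-12)) := by
    rw [← Real.exp_add, ← Real.exp_add, ← Real.exp_add, ← Real.exp_add]
    refine Real.exp_le_exp.2 ?_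
    nlinarith
  refine e8.trans ?_
  rw [mu]
  have e9 : Real.exp (-5) * Real.exp (-(2 * Real.log n)) * Real.exp (-12) ≤
      3 / 32 * (1 / √n * (1 / (10 * n)) * Real.exp (-12)) := by
    rw [e6]
    have e10 : 3 / 320 * (1 / ((n : ℝ) * n)) ≤ 3 / 32 * (1 / √n * (1 / (10 * n))) := by
      have e11 : 3 / 32 * (1 / √(n : ℝ) * (1 / (10 * n))) = 3 / 320 * (1 / (√n * n)) := by
        field_simp
        norm_num
      rw [e11]
      refine mul_le_mul_of_nonneg_left ?_ (by norm_num)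
      apply one_div_le_one_div_of_le (by positivity)
      exact mul_le_mul_of_nonneg_right hsn h0'.le
    calc Real.exp (-5) * (1 / ((n : ℝ) * n)) * Real.exp (-12) ≤
        3 / 320 * (1 / ((n : ℝ) * n)) * Real.exp (-12) := by gcongr
      _ ≤ 3 / 32 * (1 / √n * (1 / (10 * n))) * Real.exp (-12) := by gcongr
      _ = _ := by ring
  have e12 : Real.exp (-(2 * s * √n)) ≤ Real.exp (-(1 / √n * (R * s))) :=
    Real.exp_le_exp.2 (neg_le_neg e7)
  refine mul_le_mul (mul_le_mul_of_nonneg_right e12 (Real.exp_pos _).le) e9 (by positivity)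
    (by positivity)

/-- The statement of `asG` (helper46). -/
def AsG : Prop := ∀ ξ : ℝ, 0 < ξ → ∀ᶠ n : ℕ in atTop, ∀ R : ℝ, 4 * n / π ≤ R →
  R ≤ 2 / Real.sin (π / (2 * n)) + 23 * √n * (1 + Real.log n) →
    (π / (2 * Real.exp 1)) ^ (2 * n) * Real.exp (-(ξ * n)) ≤
      ((2 * n - 1).factorial : ℝ) / R ^ (2 * n - 1) ∧
    ((2 * n - 1).factorial : ℝ) / R ^ (2 * n - 1) ≤
      (π / (2 * Real.exp 1)) ^ (2 * n) * Real.exp (ξ * n)

/-- The statement of `locS` (helper46). -/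
def LocS : Prop := ∀ η : ℝ, 0 < η → η < 1 → ∃ c : ℝ, 0 < c ∧ ∀ᶠ n : ℕ in atTop,
  ∀ (ν : Measure (EuclideanSpace ℝ (Fin (4 * n)))) (F : EuclideanSpace ℝ (Fin (4 * n)) → ℝ)
    (S : ℝ → ℝ) (R : ℝ), Tst n ν F S R → ∀ u : ℝ, 0 < u → u ≤ (1 - η) * R →
      |S u| ≤ Real.exp (-(c * n))

end Pool.Agent.SH
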