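import Mathlib

/-!
ShellCounts project: the exponent `(1 / 2) log₂ (2 e / π) = 0.3956...`.
-/

set_option autoImplicit false

namespace Pool.Agent.SH

open Real

/-- The exponent of the lattice kissing number bound lies between `0.3955` and `0.3957`. -/
theorem num : 0.3955 < 1 / 2 * Real.logb 2 (2 * Real.exp 1 / π) ∧
    1 / 2 * Real.logb 2 (2 * Real.exp 1 / π) < 0.3957 := by
  have he1 := Real.exp_one_gt_d9
  have he2 := Real.exp_one_lt_d9
  have hp1 := Real.pi_gt_d6
  have hp2 := Real.pi_lt_d6
  have hp := Real.pi_pos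
  set x : ℝ := 2 * Real.exp 1 / π with hxdef
  have hx : 0 < x := by positivity
  have hlo : (1.73051 : ℝ) < x := by
    rw [hxdef, lt_div_iff₀ hp]
    nlinarith
  have hhi : x < 1.73053 := by
    rw [hxdef, div_lt_iff₀ hp]
    nlinarith
  have hL : ∀ n : ℕ, Real.logb 2 (x ^ n) = n * Real.logb 2 x := fun n => Real.logb_pow 2 x n
  have h2 : ∀ n : ℕ, Real.logb 2 ((2 : ℝ) ^ n) = n := fun n => by
    rw [Real.logb_pow, Real.logb_self_eq_one (by norm_num), mul_one]
  constructor
  · have h4 : (2 : ℝ) ^ 53 < x ^ 67 :=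
      (by norm_num : (2 : ℝ) ^ 53 < 1.73051 ^ 67).trans (pow_lt_pow_left₀ hlo (by norm_num)
        (by norm_num))
    have h5 := Real.logb_lt_logb (b := 2) (by norm_num) (by positivity) h4
    rw [hL, h2] at h5
    norm_num at h5
    linarith
  · have h4 : x ^ 115 < (2 : ℝ) ^ 91 :=
      (pow_lt_pow_left₀ hhi hx.le (by norm_num)).trans (by norm_num)
    have h5 := Real.logb_lt_logb (b := 2) (by norm_num) (by positivity) h4
    rw [hL, h2] at h5
    norm_num at h5
    linarith

end Pool.Agent.SH
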