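import Pool.Agent.Lib.SH.Trans
import Pool.Agent.Lib.SH.Num

/-!
MP_ef2672, shell counts: the kissing numbers of lattices.
-/

set_option autoImplicit false

namespace Pool.Agent.SH

open Pool.Agent.Lib.MP_ef2672_gt_Tauber Pool.Agent.Lib.EF_h73 MeasureTheory Filter Topology
open Pool.Agent.Lib.MP_ef2672_gt_Over.Shell (Upper nShort_mono)

/-- The number of the shortest nonzero vectors of a lattice. -/
theorem kissing (hU : Upper) : ∀ᶠ n : ℕ in atTop, ∀ A : Matrix (Fin n) (Fin n) ℝ, A.det ≠ 0 →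
    ({w : Fin n → ℤ | w ≠ 0 ∧ normSq A w = minSq A}.ncard : ℝ) ≤ (2 : ℝ) ^ (0.3957 * (n : ℝ)) := by
  have hpi := Real.pi_pos
  have he := Real.exp_pos 1
  have hV : 0 < 2 * Real.exp 1 / Real.pi := by positivity
  set κ : ℝ := 0.3957 - 1 / 2 * Real.logb 2 (2 * Real.exp 1 / Real.pi) with hκ
  have hκ0 : 0 < κ := by
    have := num.2
    rw [hκ]; linarith
  have hl2 : 0 < Real.log 2 := Real.log_pos (by norm_num)
  set ε : ℝ := κ * Real.log 2 / 2 with hε
  have hε0 : 0 < ε := by positivity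
  set s : ℝ := Real.exp (κ * Real.log 2) with hs
  have hs1 : 1 < s := by
    rw [hs]
    exact Real.one_lt_exp_iff.2 (by positivity)
  filter_upwards [hU ε hε0 s, eventually_gt_atTop 0] with n h hn A hA
  have hn0 : (0 : ℝ) < n := by exact_mod_cast hn
  rcases Set.eq_empty_or_nonempty {w : Fin n → ℤ | w ≠ 0 ∧ normSq A w = minSq A} with h0 | h0
  · rw [h0, Set.ncard_empty, Nat.cast_zero]
    positivity
  obtain ⟨w₀, hw₀, hw₀'⟩ := h0
  have hμ : 0 < minSq A := by
    rw [← hw₀']
    refine lt_of_le_of_ne (normSq_nonneg A w₀) fun h1 => hw₀ ?_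
    have h2 : Matrix.mulVec A (fun j => (w₀ j : ℝ)) = 0 := by
      ext i
      have h3 := (Finset.sum_eq_zero_iff_of_nonneg (fun i _ => sq_nonneg _)).1 h1.symm i
        (Finset.mem_univ i)
      simpa using h3
    have h3 := Matrix.eq_zero_of_mulVec_eq_zero hA h2
    ext i
    have := congrFun h3 i
    simpa using this
  have h1 : ({w : Fin n → ℤ | w ≠ 0 ∧ normSq A w = minSq A}.ncard : ℝ) ≤
      nShort A (s * minSq A) := by
    unfold nShort
    refine Nat.cast_le.2 (Set.ncard_le_ncard ?_ (finite_short A hA _))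
    rintro w ⟨hw, hw2⟩
    refine ⟨hw, ?_⟩
    show normSq A w < s * minSq A
    rw [hw2]
    nlinarith
  refine (h1.trans (h A hA s hs1.le le_rfl)).trans (le_of_eq ?_)
  apply Real.log_injOn_pos (Set.mem_Ioi.2 (by positivity)) (Set.mem_Ioi.2 (by positivity))
  rw [Real.log_mul (by positivity) (by positivity), Real.log_rpow (by positivity),
    Real.log_mul (by positivity) (by positivity), Real.log_exp, Real.log_rpow (by norm_num),
    Real.log_exp, hε]
  have h2 : Real.log (2 * Real.exp 1 / Real.pi) =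
      Real.logb 2 (2 * Real.exp 1 / Real.pi) * Real.log 2 := by
    unfold Real.logb
    field_simp
  rw [h2, hκ]
  ring

/-- The upper bound with `≤` instead of `<`. -/
theorem upper_le (hU : Upper) : ∀ ε S : ℝ, 0 < ε → 1 ≤ S → ∀ᶠ n : ℕ in atTop,
    ∀ A : Matrix (Fin n) (Fin n) ℝ, A.det ≠ 0 → ∀ s : ℝ, 1 ≤ s → s ≤ S →
      ({w : Fin n → ℤ | w ≠ 0 ∧ normSq A w ≤ s * minSq A}.ncard : ℝ) ≤
        (2 * Real.exp 1 / Real.pi * s) ^ ((n : ℝ) / 2) * Real.exp (ε * n) := by
  intro ε S hε hS
  have hpi := Real.pi_pos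
  have he := Real.exp_pos 1
  have he1 : 1 < Real.exp ε := Real.one_lt_exp_iff.2 hε
  filter_upwards [hU (ε / 2) (by positivity) (S * Real.exp ε)] with n h A hA s hs1 hsS
  have hs0 : 0 < s := by linarith
  rcases Set.eq_empty_or_nonempty {w : Fin n → ℤ | w ≠ 0 ∧ normSq A w ≤ s * minSq A} with h0 | h0
  · rw [h0, Set.ncard_empty, Nat.cast_zero]
    positivity
  obtain ⟨w₀, hw₀, hw₀'⟩ := h0
  have hμ : 0 < minSq A := by
    have h1 : 0 < normSq A w₀ := by
      refine lt_of_le_of_ne (normSq_nonneg A w₀) fun h1 => hw₀ ?_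
      have h2 : Matrix.mulVec A (fun j => (w₀ j : ℝ)) = 0 := by
        ext i
        have h3 := (Finset.sum_eq_zero_iff_of_nonneg (fun i _ => sq_nonneg _)).1 h1.symm i
          (Finset.mem_univ i)
        simpa using h3
      have h3 := Matrix.eq_zero_of_mulVec_eq_zero hA h2
      ext i
      have := congrFun h3 i
      simpa using this
    by_contra h2
    push Not at h2
    have h3 : s * minSq A ≤ 0 := mul_nonpos_of_nonneg_of_nonpos hs0.le h2
    linarith
  have h1 : ({w : Fin n → ℤ | w ≠ 0 ∧ normSq A w ≤ s * minSq A}.ncard : ℝ) ≤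
      nShort A (s * Real.exp ε * minSq A) := by
    unfold nShort
    refine Nat.cast_le.2 (Set.ncard_le_ncard ?_ (finite_short A hA _))
    rintro w ⟨hw, hw2⟩
    refine ⟨hw, ?_⟩
    show normSq A w < s * Real.exp ε * minSq A
    have h2 : s * minSq A < s * Real.exp ε * minSq A := by
      have : s < s * Real.exp ε := by nlinarith
      exact mul_lt_mul_of_pos_right this hμ
    linarith
  have h3 : 1 ≤ s * Real.exp ε := by nlinarith
  refine (h1.trans (h A hA _ h3 (by gcongr))).trans (le_of_eq ?_)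
  rw [← mul_assoc, Real.mul_rpow (by positivity) (by positivity), ← Real.exp_mul, mul_assoc,
    ← Real.exp_add]
  congr 2
  ring

end Pool.Agent.SH
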