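import Pool.Agent.Lib.KL.LP

/-!
Shell counts (MP_ef2672): the linear programming inequality for a lattice, with finitely many
exceptional vectors.
-/

set_option autoImplicit false

namespace Pool.Agent.SH

open MeasureTheory Filter Topology
open Pool.Agent.KL Pool.Agent.KL.LPaux

variable {N : ℕ}

/-- The inequality for the lattice `ℤ^N`, with finitely many exceptional vectors. -/
theorem integral_le_fin {g : (Fin N → ℝ) → ℝ} {ν : Measure (Fin N → ℝ)} [IsFiniteMeasure ν]
    (hg : ∀ z, g z = ∫ w, Real.cos (dot w z) ∂ν) (hI : Integrable g)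
    (W : Finset (Fin N → ℤ)) (hW : (0 : Fin N → ℤ) ∉ W)
    (hneg : ∀ w : Fin N → ℤ, w ≠ 0 → w ∉ W → g (ι w) ≤ 0) :
    ∫ z, g z ≤ g 0 + ∑ w ∈ W, g (ι w) := by
  classical
  have hTI := integrable_T hI
  set s : (Fin N → ℤ) → ℝ := fun w => Tm (T g) (ι w) - T g (ι w) - Tm g (ι w) with hs
  have hsum : HasSum s ((∫ z, g z) - (∫ z, g z) - ∫ z, g z) := by
    have h1 := ((hasSum_Tm hTI).sub (hasSum_T hI)).sub (hasSum_Tm hI)
    rw [integral_T hI] at h1
    exact h1
  have hlim := tendsto_avg s hsum.summable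
  rw [hsum.tsum_eq] at hlim
  have hlow : ∀ᶠ m : ℕ in atTop,
      -(g 0 + ∑ w ∈ W, g (ι w) * ((cnt N m w : ℝ) / (m : ℝ) ^ N)) ≤
        (∑ x ∈ box N m, ∑ y ∈ box N m, s (x - y)) / (m : ℝ) ^ N := by
    filter_upwards [eventually_gt_atTop 0] with m hm
    have hmN : (0 : ℝ) < (m : ℝ) ^ N := by positivity
    have h1 := positivity_sum hg (box N m)
    have h2 : ∑ x ∈ box N m, ∑ y ∈ box N m, (g (ι (x - y)) - T g (ι (x - y)) -
        Tm g (ι (x - y)) + Tm (T g) (ι (x - y))) =
        ∑ x ∈ box N m, ∑ y ∈ box N m, g (ι (x - y)) +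
          ∑ x ∈ box N m, ∑ y ∈ box N m, s (x - y) := by
      rw [← Finset.sum_add_distrib]
      refine Finset.sum_congr rfl fun x _ => ?_
      rw [← Finset.sum_add_distrib]
      refine Finset.sum_congr rfl fun y _ => ?_
      simp only [hs]
      ring
    have h3 : ∑ x ∈ box N m, ∑ y ∈ box N m, g (ι (x - y)) ≤
        (m : ℝ) ^ N * g 0 + ∑ w ∈ W, g (ι w) * (cnt N m w : ℝ) := by
      have h4 : ∀ x ∈ box N m, ∑ y ∈ box N m, g (ι (x - y)) ≤
          g 0 + ∑ w ∈ W, if x - w ∈ box N m then g (ι w) else 0 := by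
        intro x hx
        have h5 : ∑ y ∈ box N m, g (ι (x - y)) ≤ ∑ y ∈ box N m,
            ((if x = y then g 0 else 0) + if x - y ∈ W then g (ι (x - y)) else 0) := by
          refine Finset.sum_le_sum fun y _ => ?_
          by_cases h6 : x = y
          · subst h6
            have h7 : ι (x - x) = (0 : Fin N → ℝ) := by
              funext i
              simp [ι]
            rw [if_pos rfl, sub_self, if_neg hW, add_zero, ← h7, sub_self]
          · rw [if_neg h6, zero_add]
            by_cases h8 : x - y ∈ W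
            · rw [if_pos h8]
            · rw [if_neg h8]
              exact hneg _ (sub_ne_zero.2 h6) h8
        refine h5.trans (le_of_eq ?_)
        rw [Finset.sum_add_distrib, Finset.sum_ite_eq, if_pos hx]
        congr 1
        rw [← Finset.sum_filter, ← Finset.sum_filter]
        refine Finset.sum_nbij' (fun y => x - y) (fun w => x - w) ?_ ?_ ?_ ?_ ?_
        · intro y hy
          rw [Finset.mem_filter] at hy ⊢
          exact ⟨hy.2, by rw [sub_sub_cancel]; exact hy.1⟩
        · intro w hw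
          rw [Finset.mem_filter] at hw ⊢
          exact ⟨hw.2, by rw [sub_sub_cancel]; exact hw.1⟩
        · intro y _
          exact sub_sub_cancel x y
        · intro w _
          exact sub_sub_cancel x w
        · intro y _
          rfl
      calc ∑ x ∈ box N m, ∑ y ∈ box N m, g (ι (x - y)) ≤
          ∑ x ∈ box N m, (g 0 + ∑ w ∈ W, if x - w ∈ box N m then g (ι w) else 0) :=
            Finset.sum_le_sum h4
        _ = (m : ℝ) ^ N * g 0 + ∑ w ∈ W, g (ι w) * (cnt N m w : ℝ) := by
            rw [Finset.sum_add_distrib, Finset.sum_const, card_box, nsmul_eq_mul, Finset.sum_comm]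
            congr 1
            · push_cast
              ring
            · refine Finset.sum_congr rfl fun w _ => ?_
              rw [← Finset.sum_filter, Finset.sum_const, nsmul_eq_mul, mul_comm]
              rfl
    rw [h2] at h1
    rw [le_div_iff₀ hmN]
    have h5 : (g 0 + ∑ w ∈ W, g (ι w) * ((cnt N m w : ℝ) / (m : ℝ) ^ N)) * (m : ℝ) ^ N =
        (m : ℝ) ^ N * g 0 + ∑ w ∈ W, g (ι w) * (cnt N m w : ℝ) := by
      rw [add_mul, Finset.sum_mul]
      congr 1
      · ring
      · refine Finset.sum_congr rfl fun w _ => ?_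
        field_simp
    rw [neg_mul, h5]
    linarith
  have hlim2 : Tendsto (fun m : ℕ => -(g 0 + ∑ w ∈ W, g (ι w) * ((cnt N m w : ℝ) / (m : ℝ) ^ N)))
      atTop (𝓝 (-(g 0 + ∑ w ∈ W, g (ι w)))) := by
    refine Tendsto.neg (Tendsto.const_add _ ?_)
    refine tendsto_finsetSum _ fun w _ => ?_
    simpa using (tendsto_cnt w).const_mul (g (ι w))
  have := le_of_tendsto_of_tendsto hlim2 hlim hlow
  linarith

/-- The linear programming inequality for one lattice, with finitely many exceptional vectors. -/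
theorem lp_fin {F : (Fin N → ℝ) → ℝ} (hF : PosDef F) (hI : Integrable F)
    (A : Matrix (Fin N) (Fin N) ℝ) (hA : A.det ≠ 0) (W : Finset (Fin N → ℤ))
    (hW : (0 : Fin N → ℤ) ∉ W)
    (hneg : ∀ w : Fin N → ℤ, w ≠ 0 → w ∉ W → F (A.mulVec fun j => (w j : ℝ)) ≤ 0) :
    ∫ z, F z ≤ |A.det| * (F 0 + ∑ w ∈ W, F (A.mulVec fun j => (w j : ℝ))) := by
  obtain ⟨ν, hν, h⟩ := posDef_comp hF A
  obtain ⟨hgI, hg⟩ := comp_matrix hI A hA
  have h1 := integral_le_fin (g := fun z => F (A.mulVec z)) (ν := ν) h hgI W hW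
    (fun w hw hw2 => hneg w hw hw2)
  rw [hg] at h1
  simp only [Matrix.mulVec_zero] at h1
  have h2 : 0 < |A.det| := abs_pos.2 hA
  rwa [inv_mul_le_iff₀ h2] at h1

end Pool.Agent.SH
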