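import Pool.Agent.Lib.LPX.Robust

/-!
ShellCounts project, row P2: the radial density of a positive definite function is exponentially small
below the critical radius.
-/

set_option autoImplicit false

namespace Pool.Agent.SH

open MeasureTheory Filter Topology Set Complex
open scoped Real
open Pool.Agent.LPX

/-- The pointwise bound behind the barrier. -/
theorem pt_eps {g : ℝ → ℝ} (hc : Continuous g) (hi : Integrable g) (h0 : ∀ u ≤ 0, g u = 0)
    (hapos' : 0 < ∫ u, ‖g u‖)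
    {b κ : ℝ} (hb : 0 < b) (hκ : 2 ≤ κ)
    (hg : ∀ z : ℂ, 0 < z.re → ‖Lap g z‖ ≤ (π / ‖z‖) ^ κ * b)
    {B : ℂ → ℂ} {S m : ℝ} (hSκ : S ≤ κ) (hm0 : 0 ≤ m)
    (hPL : ∀ L1 : ℂ → ℂ, DifferentiableOn ℂ L1 {z | 0 < z.re} → (∀ z : ℂ, 0 < z.re → ‖L1 z‖ ≤ 1) →
      (∀ z : ℂ, 0 < z.re → ‖L1 z‖ ≤ ‖z‖ ^ (-κ)) → ∀ ε : ℝ, 0 < ε → ∀ z : ℂ, 0 ≤ z.re →
        ‖L1 (z + ε)‖ * ‖B z‖ ≤ √2)
    (hB : ∀ x : ℝ, 0 ≤ x → ∀ y : ℝ, Real.exp (S * x - m * x ^ 2) ≤ ‖B (x + y * I)‖)
    {s ε : ℝ} (hs : 0 < s) (hε : 0 < ε) (u : ℝ) :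
    |g u| ≤ (∫ u, ‖g u‖) * (π * (b / ∫ u, ‖g u‖) ^ (1 / κ)) *
      Real.exp ((π * (b / ∫ u, ‖g u‖) ^ (1 / κ)) * (s + ε) * u - ((S - 1) * s - m * s ^ 2)) := by
  set a : ℝ := ∫ u, ‖g u‖ with ha
  have hapos : 0 < a := hapos'
  set θ : ℝ := π * (b / a) ^ (1 / κ) with hθ
  have hθ0 : 0 < θ := by positivity
  have hκ0 : 0 < κ := by linarith
  set L1 : ℂ → ℂ := fun z => Lap g (θ * z) / a with hL1
  have hre : ∀ z : ℂ, ((θ : ℂ) * z).re = θ * z.re := fun z => by simp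
  have hpos' : ∀ z : ℂ, 0 < z.re → 0 < ((θ : ℂ) * z).re := fun z hz => by
    rw [hre]; exact mul_pos hθ0 hz
  have hd : DifferentiableOn ℂ L1 {z | 0 < z.re} := by
    refine DifferentiableOn.div_const ?_ _
    refine (lap_differentiableOn hi h0).comp (f := fun z : ℂ => (θ : ℂ) * z) (by fun_prop) ?_
    intro z hz
    exact hpos' z hz
  have hA : ∀ z : ℂ, 0 < z.re → ‖L1 z‖ ≤ 1 := by
    intro z hz
    rw [hL1]
    simp only [norm_div, Complex.norm_real, Real.norm_eq_abs, abs_of_pos hapos]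
    rw [div_le_one hapos]
    exact norm_lap_le hi h0 (hpos' z hz).le
  have hθκ : (π / θ) ^ κ * b / a = 1 := by
    have h1 : π / θ = ((b / a) ^ (1 / κ))⁻¹ := by
      rw [hθ]
      field_simp
    rw [h1, Real.inv_rpow (by positivity), ← Real.rpow_mul (by positivity),
      one_div_mul_cancel hκ0.ne', Real.rpow_one]
    field_simp
  have hA2 : ∀ z : ℂ, 0 < z.re → ‖L1 z‖ ≤ ‖z‖ ^ (-κ) := by
    intro z hz
    have hz0 : 0 < ‖z‖ := norm_pos_iff.2 fun h => by rw [h] at hz; simp at hz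
    have h1 := hg _ (hpos' z hz)
    rw [hL1]
    simp only [norm_div, Complex.norm_real, Real.norm_eq_abs, abs_of_pos hapos]
    rw [norm_mul, Complex.norm_real, Real.norm_eq_abs, abs_of_pos hθ0] at h1
    calc ‖Lap g (θ * z)‖ / a ≤ (π / (θ * ‖z‖)) ^ κ * b / a := by gcongr
      _ = ((π / θ) ^ κ * b / a) * ‖z‖ ^ (-κ) := by
          rw [← div_div, Real.div_rpow (by positivity) hz0.le, Real.rpow_neg hz0.le]
          ring
      _ = ‖z‖ ^ (-κ) := by rw [hθκ, one_mul]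
  have hPL' := hPL L1 hd hA hA2 ε hε
  -- the integrand on the vertical line
  set E : ℝ → ℂ := fun t => L1 (((s : ℂ) + t * I) + ε) with hE
  have hsε : ∀ t : ℝ, (((s : ℂ) + t * I) + ε).re = s + ε := fun t => by simp
  have hEc : Continuous E := by
    rw [continuous_iff_continuousAt]
    intro t
    have h1 : DifferentiableAt ℂ L1 (((s : ℂ) + t * I) + ε) := by
      refine hd.differentiableAt ?_
      refine (isOpen_lt continuous_const Complex.continuous_re).mem_nhds ?_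
      show 0 < (((s : ℂ) + t * I) + ε).re
      rw [hsε]
      linarith
    exact ContinuousAt.comp (f := fun t : ℝ => ((s : ℂ) + t * I) + ε) h1.continuousAt
      (by fun_prop)
  set K : ℝ := √2 * Real.exp (-(S * s - m * s ^ 2)) with hK
  have hE1 : ∀ t, ‖E t‖ ≤ K := by
    intro t
    have h1 := hPL' ((s : ℂ) + t * I) (by simp [hs.le])
    have h2 := hB s hs.le t
    have h3 : ‖E t‖ * Real.exp (S * s - m * s ^ 2) ≤ √2 :=
      (mul_le_mul_of_nonneg_left h2 (norm_nonneg _)).trans h1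
    rw [hK, Real.exp_neg, ← div_eq_mul_inv, le_div_iff₀ (Real.exp_pos _)]
    exact h3
  have hE2 : ∀ t, t ≠ 0 → ‖E t‖ ≤ |t| ^ (-κ) := by
    intro t ht
    have h1 := hA2 (((s : ℂ) + t * I) + ε) (by rw [hsε]; linarith)
    refine h1.trans ?_
    refine Real.rpow_le_rpow_of_nonpos (abs_pos.2 ht) ?_ (by linarith)
    have h2 := Complex.abs_im_le_norm (((s : ℂ) + t * I) + ε)
    simpa using h2
  obtain ⟨hEi, hJ⟩ := jbound hEc.aestronglyMeasurable (T := Real.exp s) (by linarith)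
    (Real.exp_pos s) hE1 hE2
  -- the bound for J
  have hJ2 : ∫ t, ‖E t‖ ≤ 5 * Real.exp (s - (S * s - m * s ^ 2)) := by
    refine hJ.trans ?_
    have h1 : Real.exp s ^ (1 - κ) ≤ Real.exp (s - (S * s - m * s ^ 2)) := by
      rw [← Real.exp_mul]
      refine Real.exp_le_exp.2 ?_
      nlinarith [mul_le_mul_of_nonneg_left hSκ hs.le, mul_nonneg hm0 (sq_nonneg s)]
    have h2 : Real.exp s ^ (1 - κ) / (κ - 1) ≤ Real.exp (s - (S * s - m * s ^ 2)) := by
      refine le_trans ?_ h1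
      exact div_le_self (by positivity) (by linarith)
    have h3 : Real.exp s * K = √2 * Real.exp (s - (S * s - m * s ^ 2)) := by
      rw [hK, sub_eq_add_neg s, Real.exp_add]
      ring
    rw [h3]
    have h4 : √2 ≤ 1.5 := by
      rw [Real.sqrt_le_left (by norm_num)]
      norm_num
    have h5 := Real.exp_pos (s - (S * s - m * s ^ 2))
    nlinarith
  -- inversion
  set c : ℝ := θ * (s + ε) with hcdef
  have hc0 : 0 < c := by positivity
  have hcy : ∀ y : ℝ, (∫ v : ℝ, (g v : ℂ) * cexp (-((c : ℂ) + y * I) * v)) = a * E (θ⁻¹ * y) := by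
    intro y
    have h1 : (θ : ℂ) * ((((s : ℂ) + ((θ⁻¹ * y : ℝ) : ℂ) * I)) + ε) = (c : ℂ) + y * I := by
      rw [hcdef]
      push_cast
      have : (θ : ℂ) ≠ 0 := by exact_mod_cast hθ0.ne'
      field_simp
      ring
    rw [hE]
    simp only [hL1]
    rw [h1, mul_div_cancel₀ _ (by exact_mod_cast hapos.ne')]
    rfl
  have hLi : Integrable fun y : ℝ => ∫ v : ℝ, (g v : ℂ) * cexp (-((c : ℂ) + y * I) * v) := by
    simp_rw [hcy]
    exact (hEi.comp_mul_left' (inv_ne_zero hθ0.ne')).const_mul _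
  have hLJ : ∫ y : ℝ, ‖∫ v : ℝ, (g v : ℂ) * cexp (-((c : ℂ) + y * I) * v)‖ =
      a * θ * ∫ t, ‖E t‖ := by
    simp_rw [hcy, norm_mul, Complex.norm_real, Real.norm_eq_abs, abs_of_pos hapos]
    rw [integral_const_mul, Measure.integral_comp_mul_left (fun t : ℝ => ‖E t‖) θ⁻¹, inv_inv,
      abs_of_pos hθ0, smul_eq_mul]
    exact (mul_assoc a θ _).symm
  have h1 := laplace_inv hc hi h0 hc0 hLi u
  rw [hLJ] at h1
  refine h1.trans ?_
  have h3 : 0 ≤ ∫ t, ‖E t‖ := integral_nonneg fun _ => norm_nonneg _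
  have h4 : Real.exp (θ * (s + ε) * u - ((S - 1) * s - m * s ^ 2)) =
      Real.exp (c * u) * Real.exp (s - (S * s - m * s ^ 2)) := by
    rw [← Real.exp_add, hcdef]
    congr 1
    ring
  rw [h4]
  have h5 : 5 / (2 * π) ≤ 1 := by
    rw [div_le_one (by positivity)]
    have := Real.pi_gt_three
    linarith
  calc Real.exp (c * u) / (2 * π) * (a * θ * ∫ t, ‖E t‖)
      ≤ Real.exp (c * u) / (2 * π) * (a * θ * (5 * Real.exp (s - (S * s - m * s ^ 2)))) := by
        gcongr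
    _ = 5 / (2 * π) * (a * θ * (Real.exp (c * u) * Real.exp (s - (S * s - m * s ^ 2)))) := by
        field_simp
    _ ≤ 1 * (a * θ * (Real.exp (c * u) * Real.exp (s - (S * s - m * s ^ 2)))) := by
        gcongr
    _ = _ := by ring

/-- The pointwise bound for the radial density, for every integrable function of positive type. -/
theorem loc_pos {N : ℕ} (hN : 4 ≤ N) {F : EuclideanSpace ℝ (Fin N) → ℝ} (hFi : Integrable F)
    {ν : Measure (EuclideanSpace ℝ (Fin N))} [IsFiniteMeasure ν]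
    (hF : ∀ x, F x = ∫ ξ, Real.cos (inner ℝ x ξ) ∂ν) (ha : 0 < ∫ v, |rdens F v|)
    {s u : ℝ} (hs : 0 < s) :
    |rdens F u| ≤ (∫ v, |rdens F v|) * (π * (F 0 / ∫ v, |rdens F v|) ^ ((2 : ℝ) / N)) *
      Real.exp ((π * (F 0 / ∫ v, |rdens F v|) ^ ((2 : ℝ) / N)) * s * u -
        ((1 / Real.sin (π / (2 * (2 * (N / 4) : ℕ))) - 1) * s - (2 * (N / 4) : ℕ) * s ^ 2)) := by
  have hNr : (4 : ℝ) ≤ N := by exact_mod_cast hN
  set m : ℕ := 2 * (N / 4) with hm
  have hm1 : 1 ≤ m := by omega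
  have hmle : (m : ℝ) ≤ (N : ℝ) / 2 := by
    have : 2 * m ≤ N := by omega
    have h2 : (2 : ℝ) * m ≤ N := by exact_mod_cast this
    linarith
  have hFe : F = fun x => ∫ ξ, Real.cos (inner ℝ x ξ) ∂ν := funext hF
  have hFc : Continuous F := by
    rw [hFe]
    exact cosT_continuous ν
  have hFb : ∀ x, |F x| ≤ F 0 := by
    intro x
    rw [hF x, hF 0]
    exact cosT_abs_le ν x
  obtain ⟨hgc, hgL⟩ := rdens_spec (by omega) hFc ⟨F 0, hFb⟩ hFi
  have hgi := rdens_integrable (by omega) hFi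
  have hg0 : ∀ u ≤ 0, rdens F u = 0 := fun u hu => rdens_zero (by omega) F hu
  have hLap : ∀ z : ℂ, 0 < z.re → ‖Lap (rdens F) z‖ ≤ (π / ‖z‖) ^ ((N : ℝ) / 2) * F 0 := by
    intro z hz
    have h1 := gauss_bound hF hz
    rw [hgL z hz.le] at h1
    exact h1
  have hF0 : 0 < F 0 := by
    rcases lt_or_ge 0 (F 0) with h | h
    · exact h
    · exfalso
      have h1 : ∀ x, F x = 0 := fun x => by
        have h1 := hFb x
        have h2 := abs_nonneg (F x)
        exact abs_eq_zero.1 (by linarith)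
      have h2 : ∀ v, rdens F v = 0 := fun v => by
        rw [rdens, sph]
        simp [h1]
      simp [h2] at ha
  have he : (1 : ℝ) / ((N : ℝ) / 2) = 2 / N := by field_simp
  have key : ∀ ε : ℝ, 0 < ε →
      |rdens F u| ≤ (∫ v, |rdens F v|) * (π * (F 0 / ∫ v, |rdens F v|) ^ ((2 : ℝ) / N)) *
        Real.exp ((π * (F 0 / ∫ v, |rdens F v|) ^ ((2 : ℝ) / N)) * (s + ε) * u -
          ((1 / Real.sin (π / (2 * m)) - 1) * s - m * s ^ 2)) := by
    intro ε hε
    have h := pt_eps hgc hgi (fun u hu => hg0 u hu) ha hF0 (by linarith) hLap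
      (B := fun z => ∏ j ∈ Finset.range m, (1 - Pool.Agent.KL.zt m j * z))
      ((one_div_sin_le hm1).trans hmle) (Nat.cast_nonneg m)
      (fun L1 a b c ε hε z hz => row3_holds hN L1 a b c ε hε z hz)
      (fun x hx y => row4_holds hN x hx y) hs hε u
    rw [he] at h
    exact h
  set A : ℝ := ∫ v, |rdens F v| with hA
  set θ : ℝ := π * (F 0 / A) ^ ((2 : ℝ) / N) with hθ
  have hlim : Tendsto (fun ε : ℝ => A * θ * Real.exp (θ * (s + ε) * u -
      ((1 / Real.sin (π / (2 * m)) - 1) * s - m * s ^ 2))) (𝓝[>] 0)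
      (𝓝 (A * θ * Real.exp (θ * (s + 0) * u -
      ((1 / Real.sin (π / (2 * m)) - 1) * s - m * s ^ 2)))) := by
    refine Tendsto.mono_left ?_ nhdsWithin_le_nhds
    refine Continuous.tendsto (f := fun ε : ℝ => A * θ * Real.exp (θ * (s + ε) * u -
      ((1 / Real.sin (π / (2 * m)) - 1) * s - m * s ^ 2))) ?_ 0
    fun_prop
  rw [add_zero] at hlim
  refine ge_of_tendsto hlim ?_
  filter_upwards [self_mem_nhdsWithin] with ε hε
  exact key ε hε

/-- **Row P2.** -/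
theorem loc {N : ℕ} (hN : 4 ≤ N) {F : EuclideanSpace ℝ (Fin N) → ℝ} {r : ℝ} (h : Adm N F r)
    {s u : ℝ} (hs : 0 < s) (_hu : 0 < u) :
    |rdens F u| ≤ (∫ v, |rdens F v|) * (π * (F 0 / ∫ v, |rdens F v|) ^ ((2 : ℝ) / N)) *
      Real.exp ((π * (F 0 / ∫ v, |rdens F v|) ^ ((2 : ℝ) / N)) * s * u -
        ((1 / Real.sin (π / (2 * (2 * (N / 4) : ℕ))) - 1) * s - (2 * (N / 4) : ℕ) * s ^ 2)) := by
  obtain ⟨hr, hFi, ⟨ν, hν, hF⟩, hp, hint⟩ := h
  obtain ⟨hgi, hg0, hgint, hpart⟩ := rdens_facts (by omega) hr hFi hF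
  refine loc_pos hN hFi hF ?_ hs
  refine lt_of_lt_of_le hint ?_
  rw [← hgint]
  exact integral_mono hgi hgi.norm fun u => le_abs_self _

end Pool.Agent.SH
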