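import Pool.Agent.Lib.KL.Sn

/-!
Shell counts (MP_ef2672): `S_n` is not too small beyond the zero.
-/

set_option autoImplicit false

open MeasureTheory Set Filter Topology

namespace Pool.Agent.SH

open Pool.Agent.KL Pool.Agent.KL.Sn

/-- `sn_neg` with a margin. -/
theorem sn_margin {q P : ℝ → ℝ} {e S0 c : ℝ} {n : ℕ} (hn : 1 ≤ n) (he : e = 1 / √(n : ℝ))
    (hc : 1 ≤ c) (hS : 0 ≤ S0) (hq : Continuous q) (hb : ∀ u, 0 ≤ u → |q u| ≤ 1)
    (hP : ∀ s, 0 < s → ∫ u in Ioi (0 : ℝ), q u * Real.exp (-(s * u)) = P s)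
    (h1 : P e ≤ 1 / 2 * Real.exp (-(2 * e * S0) + 5))
    (h2 : 1 / (c * n) * Real.exp (-(4 * e * S0) - 12) ≤ P (2 * e)) (u : ℝ)
    (hu : 2 * S0 + √(n : ℝ) * (20 + Real.log (c * n)) ≤ u) :
    SnF q e u ≤ -(Real.exp (-(e * u)) * Real.exp (-(4 * e * S0)) *
      (3 / 32 * (e * (1 / (c * n)) * Real.exp (-12)))) := by
  have hn1 : (1 : ℝ) ≤ n := by exact_mod_cast hn
  have hsn : 1 ≤ √(n : ℝ) := Real.one_le_sqrt.2 hn1
  have hsn0 : 0 < √(n : ℝ) := by linarith
  have he0 : 0 < e := by rw [he]; positivity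
  have hes : e * √(n : ℝ) = 1 := by rw [he]; field_simp
  have hcn : 1 ≤ c * n := by nlinarith
  have hcn0 : 0 < c * n := by linarith
  have hlog : 0 ≤ Real.log (c * n) := Real.log_nonneg hcn
  obtain ⟨w, hw⟩ : ∃ w, w = u - 2 * S0 := ⟨_, rfl⟩
  have huw : u = 2 * S0 + w := by rw [hw]; ring
  have hw1 : √(n : ℝ) * (20 + Real.log (c * n)) ≤ w := by rw [hw]; linarith
  have hew : 20 + Real.log (c * n) ≤ e * w := by
    have h3 : e * (√(n : ℝ) * (20 + Real.log (c * n))) ≤ e * w := by gcongr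
    have h4 : e * (√(n : ℝ) * (20 + Real.log (c * n))) = 20 + Real.log (c * n) := by
      rw [← mul_assoc, hes, one_mul]
    linarith
  have hw0 : 0 ≤ w := le_trans (by positivity) hw1
  have hu0 : 0 ≤ u := by rw [huw]; linarith
  have hupper := SnF_upper he0 hq hb hP hu0
  -- the quantities
  obtain ⟨E, hE⟩ : ∃ E, E = Real.exp (-(e * u)) := ⟨_, rfl⟩
  obtain ⟨G, hG⟩ : ∃ G, G = Real.exp (-(4 * e * S0)) := ⟨_, rfl⟩
  obtain ⟨D, hD⟩ : ∃ D, D = Real.exp (-(e * w)) := ⟨_, rfl⟩
  have hE0 : 0 < E := by rw [hE]; exact Real.exp_pos _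
  have hG0 : 0 < G := by rw [hG]; exact Real.exp_pos _
  have hD0 : 0 < D := by rw [hD]; exact Real.exp_pos _
  have hDle : D ≤ Real.exp (-20) / (c * n) := by
    rw [hD, ← Real.exp_log hcn0, ← Real.exp_sub]
    exact Real.exp_le_exp.2 (by linarith)
  have hne : 1 / (c * n) ≤ e := by
    rw [he]
    apply one_div_le_one_div_of_le hsn0
    have : √(n : ℝ) ≤ n := Real.sqrt_le_self_iff.2 (Or.inr hn1)
    nlinarith
  have t1 : 2 * e * Real.exp (-(2 * e * u)) * P e ≤ E * G * (e * Real.exp 5 * D) := by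
    have e1 : Real.exp (-(2 * e * u)) * Real.exp (-(2 * e * S0) + 5) = E * G * (Real.exp 5 * D) := by
      rw [hE, hG, hD, ← Real.exp_add, ← Real.exp_add, ← Real.exp_add, ← Real.exp_add]
      congr 1
      rw [huw]
      ring
    calc 2 * e * Real.exp (-(2 * e * u)) * P e
        ≤ 2 * e * Real.exp (-(2 * e * u)) * (1 / 2 * Real.exp (-(2 * e * S0) + 5)) := by gcongr
      _ = e * (Real.exp (-(2 * e * u)) * Real.exp (-(2 * e * S0) + 5)) := by ring
      _ = _ := by rw [e1]; ring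
  have t2 : E * G * (e / 2 * (1 / (c * n)) * Real.exp (-12)) ≤
      e / 2 * Real.exp (-(e * u)) * P (2 * e) := by
    have e2 : Real.exp (-(4 * e * S0) - 12) = G * Real.exp (-12) := by
      rw [hG, ← Real.exp_add]
      congr 1
    rw [← hE]
    calc E * G * (e / 2 * (1 / (c * n)) * Real.exp (-12))
        = e / 2 * E * (1 / (c * n) * Real.exp (-(4 * e * S0) - 12)) := by rw [e2]; ring
      _ ≤ _ := by gcongr
  have t3 : 9 / 4 * Real.exp (-(3 * e * u)) = E * G * (9 / 4 * D * D) := by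
    have e3 : Real.exp (-(3 * e * u)) = E * G * (D * D) := by
      rw [hE, hG, hD, ← Real.exp_add, ← Real.exp_add, ← Real.exp_add]
      congr 1
      rw [huw]
      ring
    rw [e3]
    ring
  -- the comparison
  have hx3 : Real.exp (-3) ≤ 1 / 8 := by
    have h5 : (2 : ℝ) ≤ Real.exp 1 := by
      have := Real.exp_one_gt_d9
      linarith
    have h6 : Real.exp 3 = Real.exp 1 ^ 3 := by
      rw [← Real.exp_nat_mul]
      norm_num
    have h7 : (8 : ℝ) ≤ Real.exp 3 := by
      rw [h6]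
      calc (8 : ℝ) = 2 ^ 3 := by norm_num
        _ ≤ _ := pow_le_pow_left₀ (by norm_num) h5 3
    rw [Real.exp_neg, inv_eq_one_div]
    exact one_div_le_one_div_of_le (by norm_num) h7
  have hx28 : Real.exp (-28) ≤ 1 / 8 :=
    (Real.exp_le_exp.2 (by norm_num)).trans hx3
  have c1 : e * Real.exp 5 * D ≤ e * (1 / (c * n)) * (Real.exp (-12) * (1 / 8)) := by
    calc e * Real.exp 5 * D ≤ e * Real.exp 5 * (Real.exp (-20) / (c * n)) := by gcongr
      _ = e * (1 / (c * n)) * (Real.exp (-12) * Real.exp (-3)) := by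
          have : Real.exp 5 * Real.exp (-20) = Real.exp (-12) * Real.exp (-3) := by
            rw [← Real.exp_add, ← Real.exp_add]
            norm_num
          rw [← this]
          ring
      _ ≤ _ := by gcongr
  have c2 : 9 / 4 * D * D ≤ e * (1 / (c * n)) * (Real.exp (-12) * (9 / 32)) := by
    calc 9 / 4 * D * D ≤ 9 / 4 * (Real.exp (-20) / (c * n)) * (Real.exp (-20) / (c * n)) := by
          gcongr
      _ = 9 / 4 * ((1 / (c * n)) * (1 / (c * n))) * (Real.exp (-12) * Real.exp (-28)) := by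
          have : Real.exp (-20) * Real.exp (-20) = Real.exp (-12) * Real.exp (-28) := by
            rw [← Real.exp_add, ← Real.exp_add]
            norm_num
          rw [← this]
          ring
      _ ≤ 9 / 4 * (e * (1 / (c * n))) * (Real.exp (-12) * (1 / 8)) := by gcongr
      _ = _ := by ring
  have hfin : e * Real.exp 5 * D + 9 / 4 * D * D ≤ e / 2 * (1 / (c * n)) * Real.exp (-12) -
      3 / 32 * (e * (1 / (c * n)) * Real.exp (-12)) := by
    linarith
  have hEG : 0 < E * G := by positivity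
  have := mul_le_mul_of_nonneg_left hfin hEG.le
  rw [t3] at hupper
  rw [← hE, ← hG]
  nlinarith

end Pool.Agent.SH
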