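import Pool.Agent.Lib.SH.Loc
import Pool.Agent.Lib.SH.AsG
import Pool.Agent.Lib.SH.TestFull

/-!
Shell counts (MP_ef2672): the test function is exponentially small inside the critical ball.
-/

set_option autoImplicit false

namespace Pool.Agent.SH

open MeasureTheory Filter Topology Set Metric
open scoped Real Nat
open Pool.Agent.LPX

/-- The constant between `rdens F` and `S`. -/
noncomputable def kap (n : ℕ) : ℝ :=
  1 / 2 * (((volume : Measure (EuclideanSpace ℝ (Fin (4 * n)))).toSphere).real univ *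
    (2 * n - 1 : ℕ) !)

lemma kap_nonneg (n : ℕ) : 0 ≤ kap n := by
  unfold kap
  positivity

lemma rdens_eq {n : ℕ} (hn : 1 ≤ n) {ν : Measure (EuclideanSpace ℝ (Fin (4 * n)))}
    {F : EuclideanSpace ℝ (Fin (4 * n)) → ℝ} {S : ℝ → ℝ} {R : ℝ} (h : Tst n ν F S R) {u : ℝ}
    (hu : 0 < u) : rdens F u = kap n * S u := by
  have hs : 0 < √u := Real.sqrt_pos.2 hu
  have hss : √u ^ 2 = u := Real.sq_sqrt hu.le
  have hF : ∀ ω : sphere (0 : EuclideanSpace ℝ (Fin (4 * n))) 1,
      F (√u • (ω : EuclideanSpace ℝ (Fin (4 * n)))) = (2 * n - 1 : ℕ) ! * S u / u ^ (2 * n - 1) := by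
    intro ω
    have h1 : ‖√u • (ω : EuclideanSpace ℝ (Fin (4 * n)))‖ = √u := by
      have : ‖(ω : EuclideanSpace ℝ (Fin (4 * n)))‖ = 1 := by simp
      rw [norm_smul, this, mul_one, Real.norm_eq_abs, abs_of_pos hs]
    have h2 : √u • (ω : EuclideanSpace ℝ (Fin (4 * n))) ≠ 0 := by
      intro h0
      rw [h0, norm_zero] at h1
      exact hs.ne h1
    have h3 := h.form _ h2
    rw [h1, hss] at h3
    rw [eq_div_iff (by positivity), ← h3]
    ring
  have h4 : √u ^ (4 * n - 2) = u ^ (2 * n - 1) := by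
    rw [show 4 * n - 2 = 2 * (2 * n - 1) by omega, pow_mul, hss]
  rw [rdens, h4, sph]
  simp only [hF, integral_const, smul_eq_mul]
  rw [kap]
  field_simp

lemma S_int {n : ℕ} (hn : 1 ≤ n) {ν : Measure (EuclideanSpace ℝ (Fin (4 * n)))}
    {F : EuclideanSpace ℝ (Fin (4 * n)) → ℝ} {S : ℝ → ℝ} {R : ℝ} (h : Tst n ν F S R) :
    ∫ u in Ioi (0 : ℝ), |S u| ≤ 9 / 4 * √n := by
  have hn0 : (0 : ℝ) < n := by exact_mod_cast hn
  have hs : 0 < √(n : ℝ) := Real.sqrt_pos.2 hn0
  have hi : IntegrableOn (fun u : ℝ => 9 / 4 * Real.exp (-(1 / √n * u))) (Ioi 0) := by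
    have h1 : IntegrableOn (fun u : ℝ => Real.exp (-(1 / √(n : ℝ)) * u)) (Ioi 0) :=
      integrableOn_exp_mul_Ioi (a := -(1 / √(n : ℝ))) (by
        have : 0 < 1 / √(n : ℝ) := by positivity
        linarith) 0
    have h2 : IntegrableOn (fun u : ℝ => 9 / 4 * Real.exp (-(1 / √(n : ℝ)) * u)) (Ioi 0) :=
      Integrable.const_mul h1 _
    simpa only [neg_mul] using h2
  have h2 : ∫ u in Ioi (0 : ℝ), 9 / 4 * Real.exp (-(1 / √n * u)) = 9 / 4 * √n := by
    rw [integral_const_mul]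
    congr 1
    have h3 := integral_exp_mul_Ioi (a := -(1 / √(n : ℝ))) (by
      have : 0 < 1 / √(n : ℝ) := by positivity
      linarith) 0
    simp only [neg_mul] at h3
    rw [h3]
    simp
  rw [← h2]
  refine setIntegral_mono_on ?_ hi measurableSet_Ioi fun u hu => h.Sb u (le_of_lt hu)
  refine Integrable.mono' hi h.Sc.abs.aestronglyMeasurable ?_
  rw [ae_restrict_iff' measurableSet_Ioi]
  refine ae_of_all _ fun u hu => ?_
  rw [Real.norm_eq_abs, abs_abs]
  exact h.Sb u (le_of_lt hu)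

/-- **The localisation of the test function.** -/
theorem locS : ∀ η : ℝ, 0 < η → η < 1 → ∃ c : ℝ, 0 < c ∧ ∀ᶠ n : ℕ in atTop,
    ∀ (ν : Measure (EuclideanSpace ℝ (Fin (4 * n)))) (F : EuclideanSpace ℝ (Fin (4 * n)) → ℝ)
      (S : ℝ → ℝ) (R : ℝ), Tst n ν F S R →
      ∀ u, 0 < u → u ≤ (1 - η) * R → |S u| ≤ Real.exp (-(c * n)) := by
  intro η hη hη1
  have hπ := Real.pi_pos
  -- the small parameters
  obtain ⟨ξ, hξ, hξ1, hξ2⟩ : ∃ ξ : ℝ, 0 < ξ ∧ ξ ≤ 1 ∧ (1 - η) * Real.exp (2 * ξ) ≤ 1 - η / 2 := by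
    have h1 : Tendsto (fun x : ℝ => (1 - η) * Real.exp (2 * x)) (𝓝[>] 0)
        (𝓝 ((1 - η) * Real.exp (2 * 0))) := by
      refine Tendsto.mono_left ?_ nhdsWithin_le_nhds
      refine Continuous.tendsto (f := fun x : ℝ => (1 - η) * Real.exp (2 * x)) ?_ 0
      fun_prop
    have h2 : (1 - η) * Real.exp (2 * 0) < 1 - η / 2 := by simp; linarith
    have h3 : ∀ᶠ x : ℝ in 𝓝[>] 0, x ∈ Ioi (0 : ℝ) := self_mem_nhdsWithin
    have h4 : ∀ᶠ x : ℝ in 𝓝[>] 0, x ≤ 1 :=
      nhdsWithin_le_nhds (Iic_mem_nhds (show (0 : ℝ) < 1 by norm_num))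
    obtain ⟨x, hx1, hx2, hx3⟩ := ((h1.eventually_lt_const h2).and (h3.and h4)).exists
    exact ⟨x, hx2, hx3, hx1.le⟩
  set s : ℝ := η / (2 * π) with hs
  have hs0 : 0 < s := by positivity
  have hrad := Pool.Agent.KL.tendsto_radius 23
  have h1 : 1 / π < 1 / π * Real.exp ξ := by
    have : 1 < Real.exp ξ := Real.one_lt_exp_iff.2 hξ
    have h2 : 0 < 1 / π := by positivity
    nlinarith
  refine ⟨s ^ 2, by positivity, ?_⟩
  filter_upwards [hrad.eventually_lt_const h1, asRatio hξ, eventually_ge_atTop 1,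
    sub_exp 4 1 (ξ := s ^ 2) (by positivity)] with n hn hrat h1n hsub ν F S R h u hu hu2
  have hn1 : (1 : ℝ) ≤ n := by exact_mod_cast h1n
  have hn0 : (0 : ℝ) < n := by linarith
  have := h.fin
  have hFc : ∀ x, F x = ∫ ξ, Real.cos (inner ℝ x ξ) ∂ν := by
    intro x
    rw [h.cosT x]
    simp only [real_inner_comm]
  have hint : 0 < ∫ z, F z := lt_of_lt_of_le (by positivity) h.low
  have hR : R ≤ 4 * n / π * Real.exp ξ := by
    refine h.Rup.trans ?_
    rw [div_lt_iff₀ (by positivity)] at hn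
    refine hn.le.trans (le_of_eq ?_)
    ring
  have hR0 : 0 < R := lt_of_lt_of_le (by positivity) h.Rlow
  obtain ⟨hgi, hg0, hgint, -⟩ := rdens_facts (N := 4 * n) (by omega) hR0 h.int hFc
  set A : ℝ := ∫ v, |rdens F v| with hA
  have hAint : ∫ z, F z ≤ A := by
    rw [← hgint]
    exact integral_mono hgi hgi.norm fun u => le_abs_self _
  have hA0 : 0 < A := hint.trans_le hAint
  have hAeq : A = kap n * ∫ u in Ioi (0 : ℝ), |S u| := by
    have h2 : A = ∫ v in Ioi (0 : ℝ), |rdens F v| := by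
      rw [hA]
      symm
      refine setIntegral_eq_integral_of_forall_compl_eq_zero fun v hv => ?_
      rw [hg0 v (by simpa using hv), abs_zero]
    rw [h2, ← integral_const_mul]
    refine setIntegral_congr_fun measurableSet_Ioi fun v hv => ?_
    show |rdens F v| = kap n * |S v|
    rw [rdens_eq h1n h hv, abs_mul, abs_of_nonneg (kap_nonneg n)]
  have hk0 : 0 < kap n := by
    rcases (kap_nonneg n).lt_or_eq with h3 | h3
    · exact h3
    · rw [hAeq, ← h3, zero_mul] at hA0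
      exact absurd hA0 (lt_irrefl _)
  have hS9 := S_int h1n h
  have hloc := loc_pos (N := 4 * n) (by omega) h.int hFc hA0 (u := u) hs0
  rw [rdens_eq h1n h hu, abs_mul, abs_of_pos hk0] at hloc
  set θ : ℝ := π * (F 0 / A) ^ ((2 : ℝ) / ((4 * n : ℕ) : ℝ)) with hθ
  have hθ0 : 0 ≤ θ := by
    have := h.zero_le
    positivity
  have hθ1 : θ ≤ Real.exp ξ := by
    refine le_trans ?_ hrat
    rw [hθ]
    push_cast
    refine mul_le_mul_of_nonneg_left ?_ hπ.le
    have h3 := h.zero_le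
    refine Real.rpow_le_rpow (by positivity) ?_ (by positivity)
    refine le_trans ?_ h.ratio
    gcongr
  -- the exponent
  have hm : 2 * (4 * n / 4) = 2 * n := by omega
  rw [hm] at hloc
  have hSig : 4 * n / π ≤ 1 / Real.sin (π / (2 * ((2 * n : ℕ) : ℝ))) := by
    have h3 := one_div_sin_ge (m := 2 * n) (by omega)
    push_cast at h3 ⊢
    refine le_trans (le_of_eq ?_) h3
    ring
  have hexp : θ * s * u - ((1 / Real.sin (π / (2 * ((2 * n : ℕ) : ℝ))) - 1) * s -
      ((2 * n : ℕ) : ℝ) * s ^ 2) ≤ s - 2 * (s ^ 2 * n) := by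
    have h3 : θ * s * u ≤ Real.exp ξ * s * ((1 - η) * (4 * n / π * Real.exp ξ)) := by
      have h4 : u ≤ (1 - η) * (4 * n / π * Real.exp ξ) :=
        hu2.trans (mul_le_mul_of_nonneg_left hR (by linarith))
      gcongr
    have h5 : Real.exp ξ * s * ((1 - η) * (4 * n / π * Real.exp ξ)) =
        (4 * n / π) * s * ((1 - η) * Real.exp (2 * ξ)) := by
      have : Real.exp (2 * ξ) = Real.exp ξ * Real.exp ξ := by
        rw [← Real.exp_add]
        congr 1
        ring
      rw [this]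
      ring
    rw [h5] at h3
    have h6 : (4 * n / π) * s * ((1 - η) * Real.exp (2 * ξ)) ≤ (4 * n / π) * s * (1 - η / 2) :=
      mul_le_mul_of_nonneg_left hξ2 (by positivity)
    have h7 := mul_le_mul_of_nonneg_right hSig hs0.le
    have h8 : (4 * n / π) * s * (η / 2) = 4 * (s ^ 2 * n) := by
      rw [hs]
      field_simp
    push_cast at h7 ⊢
    linarith
  have hmain : kap n * |S u| ≤ kap n * ((9 / 4 * √n) * Real.exp ξ * Real.exp (s - 2 * (s ^ 2 * n))) := by
    refine hloc.trans ?_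
    rw [← hA, hAeq]
    have h3 : 0 ≤ ∫ u in Ioi (0 : ℝ), |S u| := integral_nonneg fun _ => abs_nonneg _
    calc (kap n * ∫ u in Ioi (0 : ℝ), |S u|) * θ * Real.exp _
        ≤ (kap n * (9 / 4 * √n)) * Real.exp ξ * Real.exp (s - 2 * (s ^ 2 * n)) := by
          gcongr
      _ = _ := by ring
  have hmain2 := le_of_mul_le_mul_left hmain hk0
  refine hmain2.trans ?_
  have h3 : Real.exp (s - 2 * (s ^ 2 * n)) = Real.exp s * (Real.exp (-(s ^ 2 * n)) *
      Real.exp (-(s ^ 2 * n))) := by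
    rw [← Real.exp_add, ← Real.exp_add]
    congr 1
    ring
  have hs1 : s ≤ 1 := by
    rw [hs, div_le_one (by positivity)]
    have := Real.pi_gt_three
    linarith
  have h4 : (9 / 4 * √n) * Real.exp ξ * Real.exp s ≤ Real.exp (s ^ 2 * n) := by
    refine le_trans ?_ hsub
    have h5 : √(n : ℝ) ≤ n + 1 := by
      rw [Real.sqrt_le_left (by linarith)]
      nlinarith
    have h6 : Real.exp ξ ≤ Real.exp 1 := Real.exp_le_exp.2 hξ1
    have h7 : Real.exp s ≤ Real.exp 1 := Real.exp_le_exp.2 hs1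
    have h8 : 9 / 4 * (Real.exp 1 * Real.exp 1) ≤ Real.exp (4 * √n + 4) := by
      have h9 : (9 / 4 : ℝ) ≤ Real.exp 2 := by
        have := Real.add_one_le_exp (2 : ℝ)
        linarith
      calc 9 / 4 * (Real.exp 1 * Real.exp 1) ≤ Real.exp 2 * (Real.exp 1 * Real.exp 1) := by gcongr
        _ = Real.exp 4 := by rw [← Real.exp_add, ← Real.exp_add]; norm_num
        _ ≤ _ := Real.exp_le_exp.2 (by
          have : 0 ≤ √(n : ℝ) := Real.sqrt_nonneg _
          linarith)
    calc (9 / 4 * √n) * Real.exp ξ * Real.exp s ≤ (9 / 4 * (n + 1)) * Real.exp 1 * Real.exp 1 := by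
          gcongr
      _ = 9 / 4 * (Real.exp 1 * Real.exp 1) * ((n : ℝ) + 1) ^ 1 := by ring
      _ ≤ _ := by gcongr
  rw [h3]
  have h5 := Real.exp_pos (-(s ^ 2 * n))
  calc (9 / 4 * √n) * Real.exp ξ * (Real.exp s * (Real.exp (-(s ^ 2 * n)) * Real.exp (-(s ^ 2 * n))))
      = ((9 / 4 * √n) * Real.exp ξ * Real.exp s) * Real.exp (-(s ^ 2 * n)) *
        Real.exp (-(s ^ 2 * n)) := by ring
    _ ≤ Real.exp (s ^ 2 * n) * Real.exp (-(s ^ 2 * n)) * Real.exp (-(s ^ 2 * n)) := by gcongr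
    _ = Real.exp (-(s ^ 2 * n)) := by
        rw [← Real.exp_add, add_neg_cancel, Real.exp_zero, one_mul]

end Pool.Agent.SH
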