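import Pool.Agent.Lib.SH.Up8

/-!
Shell counts (MP_ef2672): the lower bound in the dimensions `8 k`.
-/

set_option autoImplicit false

open MeasureTheory Filter Topology
open scoped Real

namespace Pool.Agent.SH

open Pool.Agent.KL Pool.Agent.Lib.MP_ef2672_gt_Tauber

variable {n : ℕ} {ν : Measure (EuclideanSpace ℝ (Fin (4 * n)))}
  {F : EuclideanSpace ℝ (Fin (4 * n)) → ℝ} {S : ℝ → ℝ} {R : ℝ}

/-- The determinant of a lattice with large invariant. -/
lemma det_le (hn : 0 < n) {A : Matrix (Fin (4 * n)) (Fin (4 * n)) ℝ} (hA : A.det ≠ 0) {b : ℝ}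
    (hb : 0 < b) (h : b * (4 * n) ≤ inv A) :
    |A.det| ≤ (minSq A / (b * (4 * n))) ^ (2 * n) := by
  have hnR : (0 : ℝ) < n := by exact_mod_cast hn
  have hd : 0 < |A.det| := abs_pos.2 hA
  have hN : ((4 * n : ℕ) : ℝ) = 4 * n := by push_cast; rfl
  rw [inv, hN] at h
  set x : ℝ := |A.det| ^ ((2 : ℝ) / (4 * n)) with hx
  have hx0 : 0 < x := Real.rpow_pos_of_pos hd _
  have h1 : x ≤ minSq A / (b * (4 * n)) := by
    rw [le_div_iff₀ (by positivity)]
    rw [le_div_iff₀ hx0] at h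
    linarith
  have h2 : x ^ (2 * n) = |A.det| := by
    rw [hx, ← Real.rpow_natCast, ← Real.rpow_mul hd.le]
    have : (2 : ℝ) / (4 * n) * ((2 * n : ℕ) : ℝ) = 1 := by
      push_cast
      field_simp
      norm_num
    rw [this, Real.rpow_one]
  rw [← h2]
  exact pow_le_pow_left₀ hx0.le h1 _

/-- The linear programming inequality, read as a lower bound for the number of short vectors. -/
theorem low_raw (hn : 10 ≤ n) (T : Tst n ν F S R) {A : Matrix (Fin (4 * n)) (Fin (4 * n)) ℝ}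
    (hA : A.det ≠ 0) {b v η σ : ℝ} (hb : 0 < b) (h : b * (4 * n) ≤ inv A) (hv : 1 ≤ v)
    (hη0 : 0 < η) (hη1 : η < 1) (hσ : 0 ≤ σ) (hloc : ∀ u, 0 < u → u ≤ (1 - η) * R → |S u| ≤ σ) :
    (∫ z, F z) * (v * (b * (4 * n)) / R) ^ (2 * n) ≤
      1 + σ * v ^ (2 * n) / mu n R v +
        9 / 4 * (((2 * n - 1).factorial : ℝ) / R ^ (2 * n - 1)) / (1 - η) ^ (2 * n) *
          nShort A (v * minSq A) := by
  have hm : 0 < minSq A := Pool.Agent.Lib.MP_ef2672_gt_Chain.minSq_pos (by omega) hA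
  have hnR : (10 : ℝ) ≤ n := by exact_mod_cast hn
  have hR0 : 0 < R := lt_of_lt_of_le (by positivity) T.Rlow
  have hv0 : 0 < v := by linarith
  have h1η : 0 < 1 - η := by linarith
  have hmu0 : 0 < mu n R v := by
    unfold mu
    positivity
  set W := (finite_short A hA (v * minSq A)).toFinset with hW
  have hmemW : ∀ w : Fin (4 * n) → ℤ, w ∈ W ↔ w ≠ 0 ∧ normSq A w < v * minSq A := by
    intro w
    rw [hW, Set.Finite.mem_toFinset]
    rfl
  have hcard : (nShort A (v * minSq A) : ℝ) = W.card := by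
    rw [hW]
    exact_mod_cast Set.ncard_eq_toFinset_card _ (finite_short A hA (v * minSq A))
  set G : ℝ := ((2 * n - 1).factorial : ℝ) / R ^ (2 * n - 1) with hG
  have hG0 : 0 < G := by positivity
  set t : ℝ := √(R / (v * minSq A)) with ht
  have ht0 : 0 < t := Real.sqrt_pos.2 (by positivity)
  have ht2 : t ^ 2 = R / (v * minSq A) := Real.sq_sqrt (by positivity)
  have hdetm : (t • A).det = t ^ (4 * n) * A.det := by
    rw [Matrix.det_smul, Fintype.card_fin]
  have hdet : (t • A).det ≠ 0 := by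
    rw [hdetm]
    exact mul_ne_zero (pow_ne_zero _ ht0.ne') hA
  have hmin : ∀ w : Fin (4 * n) → ℤ, w ≠ 0 → minSq A ≤ normSq A w := fun w hw => minSq_le A w hw
  have hNpos : ∀ w : Fin (4 * n) → ℤ, w ≠ 0 → 0 < normSq A w := fun w hw => hm.trans_le (hmin w hw)
  have hval : ∀ w : Fin (4 * n) → ℤ, w ≠ 0 →
      fn F ((t • A).mulVec fun j => (w j : ℝ)) =
        (2 * n - 1).factorial / (t ^ 2 * normSq A w) ^ (2 * n - 1) * S (t ^ 2 * normSq A w) :=
    fun w hw => fn_val T (sq_smul A t w) (mul_pos (by positivity) (hNpos w hw))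
  have hS0 : ∀ u, R ≤ u → S u ≤ 0 := by
    intro u hu
    refine (T.Sneg u hu).trans ?_
    rw [neg_nonpos]
    positivity
  have hlp := lp_fin (fn_posDef T) (fn_integrable T) (t • A) hdet W
    (fun h => ((hmemW 0).1 h).1 rfl) (fun w hw hwW => by
      have h1 : v * minSq A ≤ normSq A w := by
        by_contra hcon
        exact hwW ((hmemW w).2 ⟨hw, not_le.1 hcon⟩)
      have h2 : R ≤ t ^ 2 * normSq A w := by
        rw [ht2]
        calc R = R / (v * minSq A) * (v * minSq A) := by field_simp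
          _ ≤ _ := mul_le_mul_of_nonneg_left h1 (by positivity)
      rw [hval w hw]
      exact mul_nonpos_of_nonneg_of_nonpos
        (div_nonneg (by positivity) (pow_nonneg (hR0.le.trans h2) _)) (hS0 _ h2))
  rw [fn_zero, fn_integral] at hlp
  -- the determinant
  have hD : |(t • A).det| ≤ (R / (v * (b * (4 * n)))) ^ (2 * n) := by
    rw [hdetm, abs_mul, abs_of_pos (pow_pos ht0 _)]
    have h1 : t ^ (4 * n) = (t ^ 2) ^ (2 * n) := by
      rw [← pow_mul]
      congr 1
      ring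
    have h2 := det_le (by omega) hA hb h
    calc t ^ (4 * n) * |A.det| ≤ (t ^ 2) ^ (2 * n) * (minSq A / (b * (4 * n))) ^ (2 * n) := by
          rw [h1]
          exact mul_le_mul_of_nonneg_left h2 (by positivity)
      _ = _ := by
          rw [← mul_pow, ht2]
          congr 1
          field_simp
  have hD0 : 0 < |(t • A).det| := abs_pos.2 hdet
  -- the terms
  have hterm : ∀ w ∈ W, fn F ((t • A).mulVec fun j => (w j : ℝ)) ≤
      σ * v ^ (2 * n) * (G * (minSq A / normSq A w) ^ (2 * n - 1)) +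
        9 / 4 * G / (1 - η) ^ (2 * n) := by
    intro w hw
    obtain ⟨hw0, hw1⟩ := (hmemW w).1 hw
    have hN := hNpos w hw0
    have hu0 : 0 < t ^ 2 * normSq A w := mul_pos (by positivity) hN
    have hratio : 0 ≤ minSq A / normSq A w := by positivity
    have ha : 0 ≤ σ * v ^ (2 * n) * (G * (minSq A / normSq A w) ^ (2 * n - 1)) := by positivity
    have hb2 : 0 ≤ 9 / 4 * G / (1 - η) ^ (2 * n) := by positivity
    rw [hval w hw0]
    have hfac : ((2 * n - 1).factorial : ℝ) / (t ^ 2 * normSq A w) ^ (2 * n - 1) =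
        v ^ (2 * n - 1) * (G * (minSq A / normSq A w) ^ (2 * n - 1)) := by
      have e1 : t ^ 2 * normSq A w = R / (v * (minSq A / normSq A w)) := by
        rw [ht2]
        field_simp
      rw [e1, hG, div_pow, mul_pow]
      have := pow_pos hR0 (2 * n - 1)
      have := pow_pos hv0 (2 * n - 1)
      have := pow_pos (div_pos hm hN) (2 * n - 1)
      field_simp
    rcases le_or_gt (t ^ 2 * normSq A w) ((1 - η) * R) with hc | hc
    · have h3 := le_trans (le_abs_self _) (hloc _ hu0 hc)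
      have h4 : ((2 * n - 1).factorial : ℝ) / (t ^ 2 * normSq A w) ^ (2 * n - 1) *
          S (t ^ 2 * normSq A w) ≤
          ((2 * n - 1).factorial : ℝ) / (t ^ 2 * normSq A w) ^ (2 * n - 1) * σ :=
        mul_le_mul_of_nonneg_left h3 (by positivity)
      have h5 : v ^ (2 * n - 1) ≤ v ^ (2 * n) := pow_le_pow_right₀ hv (by omega)
      have h6 : v ^ (2 * n - 1) * (G * (minSq A / normSq A w) ^ (2 * n - 1)) * σ ≤
          v ^ (2 * n) * (G * (minSq A / normSq A w) ^ (2 * n - 1)) * σ :=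
        mul_le_mul_of_nonneg_right (mul_le_mul_of_nonneg_right h5 (by positivity)) hσ
      rw [hfac] at h4 ⊢
      linarith
    · have h3 : S (t ^ 2 * normSq A w) ≤ 9 / 4 := by
        refine (le_abs_self _).trans ((T.Sb _ hu0.le).trans ?_)
        have : Real.exp (-(1 / √(n : ℝ) * (t ^ 2 * normSq A w))) ≤ 1 := by
          rw [Real.exp_le_one_iff, neg_nonpos]
          positivity
        linarith
      have h4 : ((2 * n - 1).factorial : ℝ) / (t ^ 2 * normSq A w) ^ (2 * n - 1) ≤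
          G / (1 - η) ^ (2 * n) := by
        have h5 : ((1 - η) * R) ^ (2 * n - 1) ≤ (t ^ 2 * normSq A w) ^ (2 * n - 1) :=
          pow_le_pow_left₀ (by positivity) hc.le _
        have h6 : (1 - η) ^ (2 * n) ≤ (1 - η) ^ (2 * n - 1) :=
          pow_le_pow_of_le_one h1η.le (by linarith) (by omega)
        calc ((2 * n - 1).factorial : ℝ) / (t ^ 2 * normSq A w) ^ (2 * n - 1) ≤
            (2 * n - 1).factorial / ((1 - η) * R) ^ (2 * n - 1) := by gcongr
          _ = G / (1 - η) ^ (2 * n - 1) := by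
              rw [hG, mul_pow, div_div, mul_comm ((1 - η) ^ (2 * n - 1))]
          _ ≤ G / (1 - η) ^ (2 * n) := by gcongr
      have h7 : ((2 * n - 1).factorial : ℝ) / (t ^ 2 * normSq A w) ^ (2 * n - 1) *
          S (t ^ 2 * normSq A w) ≤ G / (1 - η) ^ (2 * n) * (9 / 4) := by
        refine (mul_le_mul_of_nonneg_left h3 (by positivity)).trans ?_
        exact mul_le_mul_of_nonneg_right h4 (by norm_num)
      have h8 : G / (1 - η) ^ (2 * n) * (9 / 4) = 9 / 4 * G / (1 - η) ^ (2 * n) := by ring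
      linarith
  have hsumW := Finset.sum_le_sum hterm
  rw [Finset.sum_add_distrib, Finset.sum_const, nsmul_eq_mul, ← Finset.mul_sum,
    ← Finset.mul_sum] at hsumW
  have hwt := weighted hn T A hA W (fun w hw => ((hmemW w).1 hw).1) (s := v)
    (fun w hw => ((hmemW w).1 hw).2.le)
  have hGs : G * ∑ w ∈ W, (minSq A / normSq A w) ^ (2 * n - 1) ≤ 1 / mu n R v := by
    rw [le_div_iff₀ hmu0]
    linarith
  have h9 : σ * v ^ (2 * n) * (G * ∑ w ∈ W, (minSq A / normSq A w) ^ (2 * n - 1)) ≤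
      σ * v ^ (2 * n) / mu n R v := by
    rw [div_eq_mul_one_div (σ * v ^ (2 * n))]
    exact mul_le_mul_of_nonneg_left hGs (by positivity)
  have hle1 := T.le_one
  have h10 : F 0 + ∑ w ∈ W, fn F ((t • A).mulVec fun j => (w j : ℝ)) ≤
      1 + σ * v ^ (2 * n) / mu n R v + 9 / 4 * G / (1 - η) ^ (2 * n) *
        nShort A (v * minSq A) := by
    rw [hcard]
    linarith
  have hrhs : 0 ≤ 1 + σ * v ^ (2 * n) / mu n R v + 9 / 4 * G / (1 - η) ^ (2 * n) *
        nShort A (v * minSq A) := by positivity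
  have h11 : ∫ z, F z ≤ (R / (v * (b * (4 * n)))) ^ (2 * n) *
      (1 + σ * v ^ (2 * n) / mu n R v + 9 / 4 * G / (1 - η) ^ (2 * n) *
        nShort A (v * minSq A)) := by
    refine hlp.trans ?_
    exact mul_le_mul hD h10 (by
      by_contra hcon
      have h12 := mul_neg_of_pos_of_neg hD0 (not_le.1 hcon)
      have h13 : 0 ≤ ∫ z, F z := by
        refine le_trans ?_ T.low
        positivity
      linarith) (by positivity)
  have h14 : (R / (v * (b * (4 * (n : ℝ))))) ^ (2 * n) * (v * (b * (4 * n)) / R) ^ (2 * n) = 1 := by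
    rw [← mul_pow]
    have : R / (v * (b * (4 * (n : ℝ)))) * (v * (b * (4 * n)) / R) = 1 := by field_simp
    rw [this, one_pow]
  have h15 : 0 ≤ (v * (b * (4 * (n : ℝ))) / R) ^ (2 * n) := by positivity
  calc (∫ z, F z) * (v * (b * (4 * n)) / R) ^ (2 * n) ≤
      ((R / (v * (b * (4 * n)))) ^ (2 * n) *
      (1 + σ * v ^ (2 * n) / mu n R v + 9 / 4 * G / (1 - η) ^ (2 * n) *
        nShort A (v * minSq A))) * (v * (b * (4 * n)) / R) ^ (2 * n) :=
        mul_le_mul_of_nonneg_right h11 h15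
    _ = ((R / (v * (b * (4 * (n : ℝ))))) ^ (2 * n) * (v * (b * (4 * n)) / R) ^ (2 * n)) *
      (1 + σ * v ^ (2 * n) / mu n R v + 9 / 4 * G / (1 - η) ^ (2 * n) *
        nShort A (v * minSq A)) := by ring
    _ = _ := by rw [h14, one_mul]

theorem low_n (hG : AsG) (hLoc : LocS) (ε S₀ : ℝ) (hε : 0 < ε) (hS : 1 ≤ S₀) :
    ∃ δ : ℝ, 0 < δ ∧ ∀ᶠ n : ℕ in atTop, Even n →
      ∀ A : Matrix (Fin (4 * n)) (Fin (4 * n)) ℝ, A.det ≠ 0 →
        (1 / π ^ 2 - δ) * (4 * n) ≤ inv A → ∀ s : ℝ, 1 ≤ s → s ≤ S₀ →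
        (2 * Real.exp 1 * s / π) ^ (2 * n) * Real.exp (-(ε / 2 * n)) ≤
          nShort A ((1 + ε) * s * minSq A) := by
  obtain ⟨η, hη⟩ : ∃ η, η = ε / (1 + ε) := ⟨_, rfl⟩
  have hη0 : 0 < η := by rw [hη]; positivity
  have hη1 : η < 1 := by
    rw [hη, div_lt_one (by linarith)]
    linarith
  have hηε : (1 - η) * (1 + ε) = 1 := by
    rw [hη]
    field_simp
    ring
  have h1η : 0 < 1 - η := by linarith
  obtain ⟨c, hc, hloc⟩ := hLoc η hη0 hη1
  have hlog : 0 < Real.log (1 + ε) := Real.log_pos (by linarith)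
  obtain ⟨ξ, hξ⟩ : ∃ ξ, ξ = min (c / 8) (min (ε / 12) (Real.log (1 + ε) / 4)) := ⟨_, rfl⟩
  have hξ0 : 0 < ξ := by
    rw [hξ]
    exact lt_min (by positivity) (lt_min (by positivity) (by positivity))
  have hξc : ξ ≤ c / 8 := by rw [hξ]; exact min_le_left _ _
  have hξε : ξ ≤ ε / 12 := by
    rw [hξ]; exact (min_le_right _ _).trans (min_le_left _ _)
  have hξl : ξ ≤ Real.log (1 + ε) / 4 := by
    rw [hξ]; exact (min_le_right _ _).trans (min_le_right _ _)
  have hex : Real.exp (-(ξ / 4)) < 1 := by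
    rw [Real.exp_lt_one_iff]
    linarith
  refine ⟨(1 - Real.exp (-(ξ / 4))) / π ^ 2, div_pos (by linarith) (by positivity), ?_⟩
  filter_upwards [hG ξ hξ0, mu_low (s := (1 + ε) * S₀) (by positivity) hξ0, hloc,
    R_up (ξ := ξ / 4) (by positivity), sub_lin 6 (9 + 3) 1 hξ0, sub_lin 0 3 0 hξ0,
    eventually_ge_atTop 10] with n h1 h2 h3 h4 h5 h6 hn he A hA hinv s hs1 hsS
  obtain ⟨ν, F, S, R, T⟩ := test_full hn he
  have hnR : (10 : ℝ) ≤ n := by exact_mod_cast hn
  have hn0 : (0 : ℝ) < n := by linarith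
  have hpi := Real.pi_pos
  have hR0 : 0 < R := lt_of_lt_of_le (by positivity) T.Rlow
  have hb : (1 : ℝ) / π ^ 2 - (1 - Real.exp (-(ξ / 4))) / π ^ 2 =
      Real.exp (-(ξ / 4)) / π ^ 2 := by ring
  rw [hb] at hinv
  obtain ⟨v, hv⟩ : ∃ v, v = (1 + ε) * s := ⟨_, rfl⟩
  have hv1 : 1 + ε ≤ v := by rw [hv]; nlinarith
  have hv11 : 1 ≤ v := by linarith
  have hv0 : 0 < v := by linarith
  have hraw := low_raw hn T hA (b := Real.exp (-(ξ / 4)) / π ^ 2) (v := v) (η := η)
    (σ := Real.exp (-(c * n))) (by positivity) hinv hv11 hη0 hη1 (Real.exp_pos _).le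
    (h3 ν F S R T)
  -- abbreviations
  obtain ⟨X, hX⟩ : ∃ X, X = Real.exp (ξ * n) := ⟨_, rfl⟩
  have hX0 : 0 < X := by rw [hX]; exact Real.exp_pos _
  have hXinv : Real.exp (-(ξ * n)) = X⁻¹ := by rw [hX, Real.exp_neg]
  have hX8 : 16 ≤ X := by
    have h7 : Real.exp 3 ≤ X := by
      rw [hX]
      refine Real.exp_le_exp.2 ?_
      linarith
    have h8 : (2.7 : ℝ) ≤ Real.exp 1 := by
      have := Real.exp_one_gt_d9
      linarith
    have h9 : Real.exp 3 = Real.exp 1 ^ 3 := by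
      rw [← Real.exp_nat_mul]
      norm_num
    have h10 : (16 : ℝ) ≤ Real.exp 3 := by
      rw [h9]
      calc (16 : ℝ) ≤ 2.7 ^ 3 := by norm_num
        _ ≤ _ := pow_le_pow_left₀ (by norm_num) h8 3
    linarith
  have hX1 : 1 ≤ X := by linarith
  obtain ⟨Y, hY⟩ : ∃ Y, Y = v ^ (2 * n) := ⟨_, rfl⟩
  have hY0 : 0 < Y := by rw [hY]; positivity
  obtain ⟨K, hK⟩ : ∃ K, K = (π / (2 * Real.exp 1)) ^ (2 * n) := ⟨_, rfl⟩
  have hK0 : 0 < K := by rw [hK]; positivity
  -- the left side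
  have hleft : Y / X ^ 2 ≤ (∫ z, F z) * (v * (Real.exp (-(ξ / 4)) / π ^ 2 * (4 * n)) / R) ^ (2 * n) := by
    have hlow : π ^ (2 * n) / X ≤ ∫ z, F z := by
      refine le_trans ?_ T.low
      rw [div_eq_mul_inv, ← hXinv]
      refine mul_le_mul_of_nonneg_left ?_ (by positivity)
      have hsq : 0 < √(n : ℝ) := Real.sqrt_pos.2 hn0
      have hsn : √(n : ℝ) ≤ n := Real.sqrt_le_self_iff.2 (Or.inr (by linarith))
      have e1 : Real.exp (-(ξ * n)) ≤ Real.exp (-3) * Real.exp (-Real.log n) *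
          Real.exp (-(6 * √n + 9)) := by
        rw [← Real.exp_add, ← Real.exp_add]
        refine Real.exp_le_exp.2 ?_
        linarith
      refine e1.trans ?_
      refine mul_le_mul_of_nonneg_right ?_ (Real.exp_pos _).le
      rw [Real.exp_neg (Real.log n), Real.exp_log hn0, Real.exp_neg, ← mul_inv, ← one_div]
      apply one_div_le_one_div_of_le (by positivity)
      have h8 : (2.7 : ℝ) ≤ Real.exp 1 := by
        have := Real.exp_one_gt_d9
        linarith
      have h9 : Real.exp 3 = Real.exp 1 ^ 3 := by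
        rw [← Real.exp_nat_mul]
        norm_num
      have h10 : (19 : ℝ) ≤ Real.exp 3 := by
        rw [h9]
        calc (19 : ℝ) ≤ 2.7 ^ 3 := by norm_num
          _ ≤ _ := pow_le_pow_left₀ (by norm_num) h8 3
      have h11 : π < 3.15 := Real.pi_lt_d2
      calc 6 * π * √(n : ℝ) ≤ 6 * 3.15 * n := by gcongr
        _ ≤ 19 * n := by
            refine mul_le_mul_of_nonneg_right (by norm_num) hn0.le
        _ ≤ Real.exp 3 * n := mul_le_mul_of_nonneg_right h10 hn0.le
    have hR := h4 R T.Rup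
    have hq : v * Real.exp (-(ξ / 2)) / π ≤
        v * (Real.exp (-(ξ / 4)) / π ^ 2 * (4 * n)) / R := by
      rw [div_le_div_iff₀ hpi hR0]
      have e2 : Real.exp (-(ξ / 2)) * Real.exp (ξ / 4) = Real.exp (-(ξ / 4)) := by
        rw [← Real.exp_add]
        congr 1
        ring
      calc v * Real.exp (-(ξ / 2)) * R ≤
          v * Real.exp (-(ξ / 2)) * (Real.exp (ξ / 4) * (4 * n / π)) := by gcongr
        _ = v * (Real.exp (-(ξ / 2)) * Real.exp (ξ / 4)) * (4 * n / π) := by ring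
        _ = v * (Real.exp (-(ξ / 4)) / π ^ 2 * (4 * n)) * π := by
            rw [e2]
            field_simp
    have hq2 : Y / X / π ^ (2 * n) ≤
        (v * (Real.exp (-(ξ / 4)) / π ^ 2 * (4 * n)) / R) ^ (2 * n) := by
      refine le_trans (le_of_eq ?_) (pow_le_pow_left₀ (by positivity) hq _)
      rw [div_pow, mul_pow, ← hY, ← Real.exp_nat_mul]
      have e3 : ((2 * n : ℕ) : ℝ) * -(ξ / 2) = -(ξ * n) := by push_cast; ring
      rw [e3, hXinv]
      rfl
    have hpp : 0 < π ^ (2 * n) := by positivity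
    calc Y / X ^ 2 = π ^ (2 * n) / X * (Y / X / π ^ (2 * n)) := by field_simp
      _ ≤ _ := mul_le_mul hlow hq2 (by positivity) (le_trans (by positivity) hlow)
  -- the right side
  have hmu : X⁻¹ ≤ mu n R v := by
    rw [← hXinv]
    refine (h2 R T.Rup).trans (mu_anti n hR0.le ?_)
    rw [hv]
    gcongr
  have hσ : Real.exp (-(c * n)) ≤ X⁻¹ ^ 8 := by
    rw [← hXinv, ← Real.exp_nat_mul]
    refine Real.exp_le_exp.2 ?_
    push_cast
    nlinarith
  have hterm2 : Real.exp (-(c * n)) * v ^ (2 * n) / mu n R v ≤ Y / X ^ 7 := by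
    rw [← hY]
    have hmu0 : 0 < mu n R v := lt_of_lt_of_le (by positivity) hmu
    calc Real.exp (-(c * n)) * Y / mu n R v ≤ X⁻¹ ^ 8 * Y / X⁻¹ := by gcongr
      _ = Y / X ^ 7 := by field_simp
  have hGu := (h1 R T.Rlow T.Rup).2
  rw [← hK, ← hX] at hGu
  have hYX : X ^ 3 ≤ Y / X := by
    rw [le_div_iff₀ hX0, hY]
    have e4 : Real.exp (Real.log (1 + ε)) = 1 + ε := Real.exp_log (by linarith)
    calc X ^ 3 * X = X ^ 4 := by ring
      _ = Real.exp ((4 : ℕ) * (ξ * n)) := by rw [hX, ← Real.exp_nat_mul]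
      _ ≤ Real.exp (((2 * n : ℕ) : ℝ) * Real.log (1 + ε)) := by
          refine Real.exp_le_exp.2 ?_
          push_cast
          nlinarith
      _ = (1 + ε) ^ (2 * n) := by rw [Real.exp_nat_mul, e4]
      _ ≤ v ^ (2 * n) := pow_le_pow_left₀ (by linarith) hv1 _
  have hall := hleft.trans hraw
  set M : ℝ := (nShort A (v * minSq A) : ℝ) with hM
  have hM0 : 0 ≤ M := Nat.cast_nonneg _
  set E : ℝ := (1 - η) ^ (2 * n) with hE
  have hE0 : 0 < E := by positivity
  have hterm3 : 9 / 4 * (((2 * n - 1).factorial : ℝ) / R ^ (2 * n - 1)) / E * M ≤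
      9 / 4 * (K * X) / E * M := by gcongr
  have hmain : Y / X ^ 2 ≤ 1 + Y / X ^ 7 + 9 / 4 * (K * X) / E * M := by linarith
  have hsmall1 : 1 ≤ Y / X ^ 2 / 4 := by
    rw [le_div_iff₀ (by norm_num), le_div_iff₀ (by positivity)]
    rw [le_div_iff₀ hX0] at hYX
    nlinarith [pow_pos hX0 2, pow_pos hX0 3]
  have hsmall2 : Y / X ^ 7 ≤ Y / X ^ 2 / 4 := by
    rw [div_div]
    apply div_le_div_of_nonneg_left hY0.le (by positivity)
    calc X ^ 2 * 4 ≤ X ^ 2 * X ^ 5 := by
          refine mul_le_mul_of_nonneg_left ?_ (by positivity)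
          calc (4 : ℝ) ≤ X := by linarith
            _ = X ^ 1 := (pow_one X).symm
            _ ≤ X ^ 5 := pow_le_pow_right₀ hX1 (by norm_num)
      _ = X ^ 7 := by ring
  have hmain2 : Y / X ^ 2 / 2 ≤ 9 / 4 * (K * X) / E * M := by linarith
  have hYE : Y * E = s ^ (2 * n) := by
    rw [hY, hE, ← mul_pow]
    congr 1
    rw [hv]
    calc (1 + ε) * s * (1 - η) = ((1 - η) * (1 + ε)) * s := by ring
      _ = s := by rw [hηε, one_mul]
  have hfin : s ^ (2 * n) / K / X ^ 4 ≤ M := by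
    have h20 : Y / X ^ 2 / 2 * (E / (9 / 4 * (K * X))) ≤ M := by
      calc Y / X ^ 2 / 2 * (E / (9 / 4 * (K * X))) ≤
          9 / 4 * (K * X) / E * M * (E / (9 / 4 * (K * X))) :=
            mul_le_mul_of_nonneg_right hmain2 (by positivity)
        _ = M := by field_simp
    refine le_trans ?_ h20
    have h21 : Y / X ^ 2 / 2 * (E / (9 / 4 * (K * X))) =
        (Y * E) / K / X ^ 3 * (2 / 9) := by
      field_simp
      norm_num
    rw [h21, hYE]
    have h22 : s ^ (2 * n) / K / X ^ 4 = s ^ (2 * n) / K / X ^ 3 * (1 / X) := by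
      field_simp
    rw [h22]
    refine mul_le_mul_of_nonneg_left ?_ (by positivity)
    rw [div_le_div_iff₀ hX0 (by norm_num)]
    linarith
  have hfinal : (2 * Real.exp 1 * s / π) ^ (2 * n) * Real.exp (-(ε / 2 * n)) ≤
      s ^ (2 * n) / K / X ^ 4 := by
    have h23 : (2 * Real.exp 1 * s / π) ^ (2 * n) = s ^ (2 * n) / K := by
      rw [hK, ← div_pow]
      congr 1
      have := Real.exp_pos 1
      field_simp
    rw [h23, div_eq_mul_inv (s ^ (2 * n) / K)]
    refine mul_le_mul_of_nonneg_left ?_ (by positivity)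
    rw [hX, ← Real.exp_nat_mul, ← Real.exp_neg]
    refine Real.exp_le_exp.2 ?_
    push_cast
    nlinarith
  rw [← hv]
  exact hfinal.trans hfin

/-- **The lower bound.** -/
theorem low8_of (hG : AsG) (hLoc : LocS) : Low8 := by
  intro ε S hε hS
  obtain ⟨δ, hδ, h⟩ := low_n hG hLoc ε S hε hS
  refine ⟨δ, hδ, ?_⟩
  obtain ⟨n0, h⟩ := eventually_atTop.1 h
  filter_upwards [eventually_ge_atTop n0] with k hk
  have key : ∀ N : ℕ, N = 4 * (2 * k) → ∀ A : Matrix (Fin N) (Fin N) ℝ, A.det ≠ 0 →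
      (1 / Real.pi ^ 2 - δ) * (8 * k) ≤ inv A → ∀ s : ℝ, 1 ≤ s → s ≤ S →
        (2 * Real.exp 1 * s / Real.pi) ^ (4 * k) * Real.exp (-(ε * k)) ≤
          nShort A ((1 + ε) * s * minSq A) := by
    intro N hN
    subst hN
    intro A hA hinv s hs1 hsS
    have e1 : 2 * (2 * k) = 4 * k := by ring
    have e2 : ε / 2 * ((2 * k : ℕ) : ℝ) = ε * k := by push_cast; ring
    have e3 : (4 : ℝ) * ((2 * k : ℕ) : ℝ) = 8 * k := by push_cast; ring
    have := h (2 * k) (by omega) (even_two_mul k) A hA (by rw [e3]; exact hinv) s hs1 hsS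
    rwa [e1, e2] at this
  exact key (8 * k) (by ring)

end Pool.Agent.SH
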