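import Pool.Agent.Lib.SH.Low8
import Pool.Agent.Lib.SH.AsG
import Pool.Agent.Lib.SH.LocS

/-!
Shell counts (MP_ef2672): the two bounds in the dimensions `8 k`.
-/

set_option autoImplicit false

namespace Pool.Agent.SH

theorem asG' : AsG := fun _ h => asG h

theorem up8 : Up8 := up8_of asG'

theorem low8 : Low8 := low8_of asG' locS

end Pool.Agent.SH
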