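import Pool.Agent.Lib.SH.LPFin
import Pool.Agent.Lib.LPX.Upper
import Pool.Agent.Lib.LPX.RateUp
import Pool.Agent.Lib.MP_ef2672_gt_Chain.Entropy

/-!
Shell counts (MP_ef2672): a lower bound for the number of vectors of every lattice at every radius,
from the linear programming bound.
-/

set_option autoImplicit false

open MeasureTheory Filter Topology
open scoped Real

namespace Pool.Agent.SH

open Pool.Agent.LPX Pool.Agent.Lib.MP_ef2672_gt_Tauber

theorem mult_val {N : ℕ} (hN : 0 < N) {F : EuclideanSpace ℝ (Fin N) → ℝ} {r : ℝ}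
    (h : Adm N F r) {A : Matrix (Fin N) (Fin N) ℝ} (hA : A.det ≠ 0) {s : ℝ} (hs : 0 < s) :
    s * inv A ≤ val N F r * (1 + (nShort A (s * minSq A) : ℝ)) ^ ((2 : ℝ) / N) := by
  obtain ⟨hr, hi, ⟨ν, hν, hF⟩, hneg, hpos⟩ := h
  have hNR : (0 : ℝ) < N := by exact_mod_cast hN
  have hmp : MeasurePreserving (WithLp.toLp 2 : (Fin N → ℝ) → EuclideanSpace ℝ (Fin N)) :=
    PiLp.volume_preserving_toLp (Fin N)
  have hemb : MeasurableEmbedding (WithLp.toLp 2 : (Fin N → ℝ) → EuclideanSpace ℝ (Fin N)) :=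
    (MeasurableEquiv.toLp 2 (Fin N → ℝ)).measurableEmbedding
  set G : (Fin N → ℝ) → ℝ := fun z => F (WithLp.toLp 2 z) with hG
  have hint : ∫ z : Fin N → ℝ, G z = ∫ x, F x := hmp.integral_comp hemb F
  have hGi : Integrable G := hmp.integrable_comp_of_integrable hi
  have hGp : Pool.Agent.KL.PosDef G := by
    refine ⟨ν.map WithLp.ofLp, ?_, fun z => ?_⟩
    · have hm : Measurable (WithLp.ofLp : EuclideanSpace ℝ (Fin N) → (Fin N → ℝ)) :=
        (MeasurableEquiv.toLp 2 (Fin N → ℝ)).symm.measurable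
      exact Measure.isFiniteMeasure_map ν _
    · have hm : Measurable (WithLp.ofLp : EuclideanSpace ℝ (Fin N) → (Fin N → ℝ)) :=
        (MeasurableEquiv.toLp 2 (Fin N → ℝ)).symm.measurable
      rw [integral_map hm.aemeasurable]
      · simp only [hG]
        rw [hF]
        refine integral_congr_ae (ae_of_all _ fun ξ => ?_)
        have h2 : (inner ℝ (WithLp.toLp 2 z : EuclideanSpace ℝ (Fin N)) ξ : ℝ) =
            ∑ i, ξ i * z i := by
          rw [EuclideanSpace.inner_eq_star_dotProduct]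
          simp [dotProduct]
        simp only [h2]
      · exact (by fun_prop : Continuous fun w : Fin N → ℝ =>
          Real.cos (∑ i, w i * z i)).aestronglyMeasurable
  have hGneg : ∀ z : Fin N → ℝ, r ^ 2 ≤ ∑ i, z i ^ 2 → G z ≤ 0 := by
    intro z hz
    refine hneg _ ?_
    have h2 : ‖(WithLp.toLp 2 z : EuclideanSpace ℝ (Fin N))‖ ^ 2 = ∑ i, z i ^ 2 := by
      rw [EuclideanSpace.norm_sq_eq]
      simp
    rw [← h2] at hz
    exact le_of_sq_le_sq hz (norm_nonneg _)
  have hGb : ∀ z, G z ≤ F 0 := by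
    intro z
    simp only [hG]
    rw [hF, hF 0]
    exact (le_abs_self _).trans (cosT_abs_le ν _)
  have hG0 : G 0 = F 0 := by
    simp only [hG]
    congr 1
  have hm : 0 < minSq A := Pool.Agent.Lib.MP_ef2672_gt_Chain.minSq_pos hN hA
  set W := (finite_short A hA (s * minSq A)).toFinset with hW
  have hmemW : ∀ w : Fin N → ℤ, w ∈ W ↔ w ≠ 0 ∧ normSq A w < s * minSq A := by
    intro w
    rw [hW, Set.Finite.mem_toFinset]
    rfl
  have hcard : (nShort A (s * minSq A) : ℝ) = W.card := by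
    rw [hW]
    exact_mod_cast Set.ncard_eq_toFinset_card _ (finite_short A hA (s * minSq A))
  set M : ℝ := (nShort A (s * minSq A) : ℝ) with hM
  have hM0 : 0 ≤ M := Nat.cast_nonneg _
  set t : ℝ := √(r ^ 2 / (s * minSq A)) with ht
  have ht0 : 0 < t := Real.sqrt_pos.2 (by positivity)
  have ht2 : t ^ 2 = r ^ 2 / (s * minSq A) := Real.sq_sqrt (by positivity)
  have hdetm : (t • A).det = t ^ N * A.det := by
    rw [Matrix.det_smul, Fintype.card_fin]
  have hdet : (t • A).det ≠ 0 := by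
    rw [hdetm]
    exact mul_ne_zero (pow_ne_zero _ ht0.ne') hA
  have hsq : ∀ w : Fin N → ℤ, ∑ i, ((t • A).mulVec (fun j => (w j : ℝ))) i ^ 2 =
      t ^ 2 * normSq A w := by
    intro w
    unfold normSq
    rw [Finset.mul_sum]
    refine Finset.sum_congr rfl fun i _ => ?_
    rw [Matrix.smul_mulVec, Pi.smul_apply, smul_eq_mul, mul_pow]
  have hlp := lp_fin hGp hGi (t • A) hdet W (fun h => ((hmemW 0).1 h).1 rfl)
    (fun w hw hwW => hGneg _ (by
      have h1 : s * minSq A ≤ normSq A w := by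
        by_contra hcon
        exact hwW ((hmemW w).2 ⟨hw, not_le.1 hcon⟩)
      rw [hsq, ht2]
      calc r ^ 2 = r ^ 2 / (s * minSq A) * (s * minSq A) := by field_simp
        _ ≤ _ := mul_le_mul_of_nonneg_left h1 (by positivity)))
  rw [hint, hG0] at hlp
  have hsum : ∑ w ∈ W, G ((t • A).mulVec fun j => (w j : ℝ)) ≤ M * F 0 := by
    rw [hcard, ← nsmul_eq_mul, ← Finset.sum_const]
    exact Finset.sum_le_sum fun w _ => hGb _
  have hD0 : 0 < |(t • A).det| := abs_pos.2 hdet
  have h3 : ∫ x, F x ≤ |(t • A).det| * ((1 + M) * F 0) := by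
    refine hlp.trans (mul_le_mul_of_nonneg_left ?_ hD0.le)
    linarith
  have hF0 : 0 < F 0 := by
    by_contra hcon
    have h4 : |(t • A).det| * ((1 + M) * F 0) ≤ 0 :=
      mul_nonpos_of_nonneg_of_nonpos hD0.le
        (mul_nonpos_of_nonneg_of_nonpos (by linarith) (not_lt.1 hcon))
    linarith
  rw [hdetm, abs_mul, abs_of_pos (pow_pos ht0 N)] at h3
  have hd : 0 < |A.det| := abs_pos.2 hA
  have hD : 0 < t ^ N * |A.det| := by positivity
  have hroot : (t ^ N * |A.det|) ^ ((2 : ℝ) / N) = t ^ 2 * |A.det| ^ ((2 : ℝ) / N) := by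
    rw [Real.mul_rpow (pow_pos ht0 N).le (abs_nonneg _), ← Real.rpow_natCast t N,
      ← Real.rpow_mul ht0.le]
    congr 1
    rw [mul_div_cancel₀ _ hNR.ne']
    exact_mod_cast Real.rpow_natCast t 2
  have hdp : 0 < |A.det| ^ ((2 : ℝ) / N) := Real.rpow_pos_of_pos hd _
  have hinv : s * inv A = r ^ 2 / (t ^ N * |A.det|) ^ ((2 : ℝ) / N) := by
    rw [hroot, ht2, inv]
    field_simp
  rw [hinv, div_eq_mul_inv, ← Real.inv_rpow hD.le, val, mul_assoc,
    ← Real.mul_rpow (by positivity) (by positivity)]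
  refine mul_le_mul_of_nonneg_left ?_ (by positivity)
  refine Real.rpow_le_rpow (inv_pos.2 hD).le ?_ (by positivity)
  rw [inv_eq_one_div, div_mul_eq_mul_div, div_le_div_iff₀ hD hpos]
  linarith

/-- **Every lattice has many vectors at every radius.** -/
theorem mult_rate : ∃ C : ℝ, ∀ n : ℕ, 2 ≤ n → ∀ A : Matrix (Fin n) (Fin n) ℝ, A.det ≠ 0 →
    ∀ s : ℝ, 0 < s → s * inv A ≤ (n / π ^ 2 + C * √n * Real.log n) *
      (1 + (nShort A (s * minSq A) : ℝ)) ^ ((2 : ℝ) / n) := by
  obtain ⟨C, hC⟩ := upper_rate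
  refine ⟨C, fun n hn A hA s hs => ?_⟩
  have hM : 0 < 1 + (nShort A (s * minSq A) : ℝ) := by positivity
  have hMp : 0 < (1 + (nShort A (s * minSq A) : ℝ)) ^ ((2 : ℝ) / n) := Real.rpow_pos_of_pos hM _
  have h1 : s * inv A / (1 + (nShort A (s * minSq A) : ℝ)) ^ ((2 : ℝ) / n) ≤ lp n :=
    le_lp fun F r h => by
      rw [div_le_iff₀ hMp]
      exact mult_val (by omega) h hA hs
  rw [div_le_iff₀ hMp] at h1
  exact h1.trans (mul_le_mul_of_nonneg_right (hC n hn) hMp.le)

end Pool.Agent.SH
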