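import Pool.Agent.Lib.MP_ef2672_gt_Tauber.Expurgate

/-!
Shell counts (MP_ef2672): the number of vectors of every lattice at every radius is at least the
number in a random lattice of determinant `γ_n^(n/2)`; for lattices with nearly the largest
invariant this is the count of a random lattice.
-/

set_option autoImplicit false

namespace Pool.Agent.SH

open Pool.Agent.Lib.MP_ef2672_gt_Tauber

theorem mult_gamma (n : ℕ) (hn : 1 ≤ n) (A : Matrix (Fin n) (Fin n) ℝ) (hA : A.det ≠ 0) (s : ℝ) :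
    s * inv A ≤ gamma n * (max 1 (nShort A (s * minSq A) : ℝ)) ^ ((2 : ℝ) / n) := by
  have h := expurgate hn A hA (s * minSq A)
  have hD : 0 < |A.det| := abs_pos.2 hA
  have hDp : 0 < |A.det| ^ ((2 : ℝ) / n) := Real.rpow_pos_of_pos hD _
  have hcast : ((max 1 (nShort A (s * minSq A)) : ℕ) : ℝ) =
      max 1 (nShort A (s * minSq A) : ℝ) := by
    push_cast
    rfl
  rw [hcast, Real.mul_rpow hD.le (by positivity)] at h
  unfold inv
  rw [← mul_div_assoc, div_le_iff₀ hDp]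
  calc s * minSq A ≤ gamma n * (|A.det| ^ ((2 : ℝ) / n) *
        (max 1 (nShort A (s * minSq A) : ℝ)) ^ ((2 : ℝ) / n)) := h
    _ = gamma n * (max 1 (nShort A (s * minSq A) : ℝ)) ^ ((2 : ℝ) / n) *
        |A.det| ^ ((2 : ℝ) / n) := by ring

theorem near_opt (n : ℕ) (hn : 1 ≤ n) (A : Matrix (Fin n) (Fin n) ℝ) (hA : A.det ≠ 0)
    (ε s : ℝ) (hs : 0 < s) (h : (1 - ε) * gamma n ≤ inv A) (h1 : 1 < (1 - ε) * s) :
    ((1 - ε) * s) ^ ((n : ℝ) / 2) ≤ (nShort A (s * minSq A) : ℝ) := by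
  have hnR : (0 : ℝ) < n := by exact_mod_cast hn
  have hγ : 0 < gamma n := lt_of_lt_of_le (by positivity) (gamma_ge hn)
  have h2 := mult_gamma n hn A hA s
  have h3 : (1 - ε) * s ≤ (max 1 (nShort A (s * minSq A) : ℝ)) ^ ((2 : ℝ) / n) := by
    have h4 : s * ((1 - ε) * gamma n) ≤ s * inv A := mul_le_mul_of_nonneg_left h hs.le
    have h5 : gamma n * ((1 - ε) * s) ≤
        gamma n * (max 1 (nShort A (s * minSq A) : ℝ)) ^ ((2 : ℝ) / n) := by
      calc gamma n * ((1 - ε) * s) = s * ((1 - ε) * gamma n) := by ring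
        _ ≤ _ := h4.trans h2
    exact le_of_mul_le_mul_left h5 hγ
  have hM : (0 : ℝ) ≤ max 1 (nShort A (s * minSq A) : ℝ) := by positivity
  have h6 : ((1 - ε) * s) ^ ((n : ℝ) / 2) ≤ max 1 (nShort A (s * minSq A) : ℝ) := by
    calc ((1 - ε) * s) ^ ((n : ℝ) / 2) ≤
        ((max 1 (nShort A (s * minSq A) : ℝ)) ^ ((2 : ℝ) / n)) ^ ((n : ℝ) / 2) :=
          Real.rpow_le_rpow (by linarith) h3 (by positivity)
      _ = max 1 (nShort A (s * minSq A) : ℝ) := by
          rw [← Real.rpow_mul hM]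
          have : (2 : ℝ) / n * ((n : ℝ) / 2) = 1 := by field_simp
          rw [this, Real.rpow_one]
  have h7 : 1 < ((1 - ε) * s) ^ ((n : ℝ) / 2) := Real.one_lt_rpow h1 (by positivity)
  rcases le_max_iff.1 h6 with h8 | h8
  · linarith
  · exact h8

end Pool.Agent.SH
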