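import Pool.Agent.Lib.MP_ef2672_gt_Over.Shell

/-!
MP_ef2672, shell counts: from the dimensions `8 k` to all dimensions, by the direct sum with
`√λ ℤʲ`, `j ≤ 7`.
-/

set_option autoImplicit false

namespace Pool.Agent.SH

open Pool.Agent.Lib.MP_ef2672_gt_Tauber Pool.Agent.Lib.EF_h73 MeasureTheory Filter Topology
open Pool.Agent.Lib.MP_ef2672_gt_Over.Shell (Upper nShort_mono)

/-- The lattice `A ℤⁿ ⊕ √λ ℤʲ`, `λ` the square of the minimum of `A ℤⁿ`. -/
noncomputable def ext {n : ℕ} (j : ℕ) (A : Matrix (Fin n) (Fin n) ℝ) :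
    Matrix (Fin (n + j)) (Fin (n + j)) ℝ :=
  direct A (Real.sqrt (minSq A) • (1 : Matrix (Fin j) (Fin j) ℝ))

lemma normSq_ext {n j : ℕ} (A : Matrix (Fin n) (Fin n) ℝ) (w : Fin (n + j) → ℤ) :
    normSq (ext j A) w = normSq A (fun i => w (Fin.castAdd j i)) +
      minSq A * ∑ i, (w (Fin.natAdd n i) : ℝ) ^ 2 := by
  unfold normSq ext
  rw [direct_sq]
  congr 1
  rw [Finset.mul_sum]
  refine Finset.sum_congr rfl fun i _ => ?_
  rw [Matrix.smul_mulVec, Matrix.one_mulVec, Pi.smul_apply, smul_eq_mul, mul_pow,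
    Real.sq_sqrt (minSq_nonneg A)]

lemma one_le_sum {j : ℕ} {w : Fin j → ℤ} (hw : w ≠ 0) : (1 : ℝ) ≤ ∑ i, (w i : ℝ) ^ 2 := by
  obtain ⟨i, hi⟩ : ∃ i, w i ≠ 0 := Function.ne_iff.1 hw
  have h2 : (1 : ℝ) ≤ (w i : ℝ) ^ 2 := by
    have h3 : (1 : ℤ) ≤ w i ^ 2 := by
      have := sq_pos_of_ne_zero hi
      omega
    exact_mod_cast h3
  exact h2.trans (Finset.single_le_sum (f := fun j => (w j : ℝ) ^ 2) (fun i _ => sq_nonneg _)
    (Finset.mem_univ i))

lemma minSq_ext {n : ℕ} (hn : 0 < n) (j : ℕ) (A : Matrix (Fin n) (Fin n) ℝ) :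
    minSq (ext j A) = minSq A := by
  have hμ := minSq_nonneg A
  apply le_antisymm
  · refine le_minSq hn A fun w hw => ?_
    have h1 := minSq_le (ext j A) (Fin.append w (0 : Fin j → ℤ)) (fun h => hw (by
      ext i
      have := congrFun h (Fin.castAdd j i)
      rwa [Fin.append_left] at this))
    have h2 := normSq_ext A (Fin.append w (0 : Fin j → ℤ))
    unfold normSq at h2
    rw [h2] at h1
    refine h1.trans (le_of_eq ?_)
    simp [Fin.append_left, Fin.append_right]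
  · refine le_minSq (by omega) _ fun w hw => ?_
    have h2 := normSq_ext A w
    unfold normSq at h2
    rw [h2]
    by_cases h1 : (fun i => w (Fin.castAdd j i)) = 0
    · have h3 : (fun i => w (Fin.natAdd n i)) ≠ 0 := by
        intro h3
        apply hw
        ext i
        refine Fin.addCases (fun j => ?_) (fun j => ?_) i
        · exact congrFun h1 j
        · exact congrFun h3 j
      have h4 := one_le_sum h3
      have h5 : 0 ≤ ∑ i, (Matrix.mulVec A (fun i => (w (Fin.castAdd j i) : ℝ))) i ^ 2 :=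
        Finset.sum_nonneg fun i _ => sq_nonneg _
      nlinarith
    · have h3 := minSq_le A (fun i => w (Fin.castAdd j i)) h1
      have h4 : 0 ≤ ∑ i, (w (Fin.natAdd n i) : ℝ) ^ 2 :=
        Finset.sum_nonneg fun i _ => sq_nonneg _
      have h5 : 0 ≤ minSq A * ∑ i, (w (Fin.natAdd n i) : ℝ) ^ 2 := mul_nonneg hμ h4
      linarith

lemma det_ext {n : ℕ} (j : ℕ) (A : Matrix (Fin n) (Fin n) ℝ) :
    (ext j A).det = A.det * Real.sqrt (minSq A) ^ j := by
  unfold ext
  rw [direct_det, Matrix.det_smul, Matrix.det_one, Fintype.card_fin, mul_one]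

lemma inv_ext {n : ℕ} (hn : 0 < n) (j : ℕ) (A : Matrix (Fin n) (Fin n) ℝ) (hA : A.det ≠ 0)
    (hμ : 0 < minSq A) : inv (ext j A) = inv A ^ ((n : ℝ) / (n + j : ℕ)) := by
  have hn0 : (0 : ℝ) < n := by exact_mod_cast hn
  have hm0 : (0 : ℝ) < (n + j : ℕ) := by positivity
  have hA0 : 0 < |A.det| := abs_pos.2 hA
  have hs : 0 < Real.sqrt (minSq A) := Real.sqrt_pos.2 hμ
  unfold inv
  rw [minSq_ext hn, det_ext, abs_mul, abs_of_pos (pow_pos hs j)]
  apply Real.log_injOn_pos (Set.mem_Ioi.2 (by positivity)) (Set.mem_Ioi.2 (by positivity))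
  rw [Real.log_rpow (by positivity), Real.log_div (by positivity) (by positivity),
    Real.log_div (by positivity) (by positivity), Real.log_rpow (by positivity),
    Real.log_rpow (by positivity), Real.log_mul (by positivity) (by positivity), Real.log_pow,
    Real.log_sqrt hμ.le]
  push_cast at hm0 ⊢
  field_simp
  ring

lemma nShort_le_ext {n : ℕ} (j : ℕ) (A : Matrix (Fin n) (Fin n) ℝ)
    (hB : (ext j A).det ≠ 0) (r : ℝ) : nShort A r ≤ nShort (ext j A) r := by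
  unfold nShort
  refine Set.ncard_le_ncard_of_injOn (fun w => Fin.append w (0 : Fin j → ℤ)) ?_ ?_
    (finite_short _ hB r)
  · rintro w ⟨hw, h1⟩
    refine ⟨fun h => hw (by
      ext i
      have := congrFun h (Fin.castAdd j i)
      rwa [Fin.append_left] at this), ?_⟩
    have h2 := normSq_ext A (Fin.append w (0 : Fin j → ℤ))
    unfold normSq at h2
    rw [h2]
    refine lt_of_eq_of_lt ?_ h1
    simp [Fin.append_left, Fin.append_right]
  · intro w _ w' _ h
    ext i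
    have := congrFun h (Fin.castAdd j i)
    simpa [Fin.append_left] using this

lemma nShort_ext_le {n : ℕ} (j m : ℕ) (A : Matrix (Fin n) (Fin n) ℝ) (hA : A.det ≠ 0)
    (hμ : 0 < minSq A) {t : ℝ} (ht : t ≤ (m : ℝ) ^ 2) :
    nShort (ext j A) (t * minSq A) ≤ (2 * m + 1) ^ j * (nShort A (t * minSq A) + 1) := by
  classical
  set r := t * minSq A with hr
  have hfin := finite_short A hA r
  set SA : Set (Fin n → ℤ) := insert 0 {w | w ≠ 0 ∧ normSq A w < r} with hSA
  set bx : Finset (Fin j → ℤ) := Fintype.piFinset fun _ : Fin j => Finset.Icc (-(m : ℤ)) m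
    with hbx
  set box : Set (Fin j → ℤ) := (bx : Set (Fin j → ℤ)) with hbox
  have hfinA : SA.Finite := hfin.insert 0
  have hfinbox : box.Finite := Finset.finite_toSet _
  have hcardA : SA.ncard ≤ nShort A r + 1 := by
    rw [hSA]
    exact Set.ncard_insert_le _ _
  have hcardbox : box.ncard = (2 * m + 1) ^ j := by
    rw [hbox, Set.ncard_coe_finset, hbx, Fintype.card_piFinset]
    simp only [Int.card_Icc, Finset.prod_const, Finset.card_univ, Fintype.card_fin]
    congr 1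
    omega
  have h1 : nShort (ext j A) r ≤ (SA ×ˢ box).ncard := by
    unfold nShort
    refine Set.ncard_le_ncard_of_injOn
      (fun w => ((fun i => w (Fin.castAdd j i)), (fun i => w (Fin.natAdd n i)))) ?_ ?_
      (hfinA.prod hfinbox)
    · rintro w ⟨hw, h2⟩
      have h3 := normSq_ext A w
      have h4 : normSq (ext j A) w < r := h2
      have h5 := normSq_nonneg A (fun i => w (Fin.castAdd j i))
      have h6 : 0 ≤ ∑ i, (w (Fin.natAdd n i) : ℝ) ^ 2 :=
        Finset.sum_nonneg fun i _ => sq_nonneg _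
      refine Set.mem_prod.2 ⟨?_, ?_⟩
      · rw [hSA]
        by_cases h7 : (fun i => w (Fin.castAdd j i)) = 0
        · exact Or.inl h7
        · refine Or.inr ⟨h7, ?_⟩
          have : 0 ≤ minSq A * ∑ i, (w (Fin.natAdd n i) : ℝ) ^ 2 := mul_nonneg hμ.le h6
          show normSq A (fun i => w (Fin.castAdd j i)) < r
          linarith
      · rw [hbox, Finset.mem_coe, hbx, Fintype.mem_piFinset]
        intro i
        have h7 : minSq A * ∑ i, (w (Fin.natAdd n i) : ℝ) ^ 2 < t * minSq A := by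
          rw [← hr]; linarith
        have h8 : ∑ i, (w (Fin.natAdd n i) : ℝ) ^ 2 < t := by
          rw [mul_comm] at h7
          exact lt_of_mul_lt_mul_right h7 hμ.le
        have h9 : (w (Fin.natAdd n i) : ℝ) ^ 2 ≤ ∑ i, (w (Fin.natAdd n i) : ℝ) ^ 2 :=
          Finset.single_le_sum (f := fun i => (w (Fin.natAdd n i) : ℝ) ^ 2)
            (fun i _ => sq_nonneg _) (Finset.mem_univ i)
        have h10 : (w (Fin.natAdd n i) : ℝ) ^ 2 ≤ (m : ℝ) ^ 2 := by linarith
        have h11 := abs_le_of_sq_le_sq' h10 (Nat.cast_nonneg m)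
        rw [Finset.mem_Icc]
        constructor
        · have := h11.1
          exact_mod_cast this
        · have := h11.2
          exact_mod_cast this
    · intro w _ w' _ h
      simp only [Prod.mk.injEq] at h
      ext i
      refine Fin.addCases (fun i => ?_) (fun i => ?_) i
      · exact congrFun h.1 i
      · exact congrFun h.2 i
  refine h1.trans ?_
  rw [Set.ncard_prod, hcardbox, mul_comm]
  exact Nat.mul_le_mul_left _ hcardA

/-- The upper bound in the dimensions `8 k`. -/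
def Up8 : Prop := ∀ ε S : ℝ, 0 < ε → 1 ≤ S → ∀ᶠ k : ℕ in atTop,
  ∀ A : Matrix (Fin (8 * k)) (Fin (8 * k)) ℝ, A.det ≠ 0 → ∀ s : ℝ, 1 ≤ s → s ≤ S →
    (nShort A (s * minSq A) : ℝ) ≤ (2 * Real.exp 1 * s / Real.pi) ^ (4 * k) * Real.exp (ε * k)

/-- The lower bound in the dimensions `8 k`. -/
def Low8 : Prop := ∀ ε S : ℝ, 0 < ε → 1 ≤ S → ∃ δ : ℝ, 0 < δ ∧ ∀ᶠ k : ℕ in atTop,
  ∀ A : Matrix (Fin (8 * k)) (Fin (8 * k)) ℝ, A.det ≠ 0 →
    (1 / Real.pi ^ 2 - δ) * (8 * k) ≤ inv A → ∀ s : ℝ, 1 ≤ s → s ≤ S →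
    (2 * Real.exp 1 * s / Real.pi) ^ (4 * k) * Real.exp (-(ε * k)) ≤
      nShort A ((1 + ε) * s * minSq A)

/-- The lower bound in all dimensions. -/
def Lower : Prop := ∀ ε S : ℝ, 0 < ε → 1 ≤ S → ∃ δ : ℝ, 0 < δ ∧ ∀ᶠ n : ℕ in atTop,
  ∀ A : Matrix (Fin n) (Fin n) ℝ, A.det ≠ 0 → (1 / Real.pi ^ 2 - δ) * n ≤ inv A →
    ∀ s : ℝ, 1 ≤ s → s ≤ S →
    (2 * Real.exp 1 / Real.pi * s) ^ ((n : ℝ) / 2) * Real.exp (-(ε * n)) ≤
      nShort A ((1 + ε) * s * minSq A)

lemma exists_dim (n : ℕ) : ∃ k j : ℕ, n + j = 8 * k ∧ j ≤ 7 ∧ n ≤ 8 * k :=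
  ⟨(n + 7) / 8, 8 * ((n + 7) / 8) - n, by omega, by omega, by omega⟩

lemma V_ge : Real.exp (1 / 2) ≤ 2 * Real.exp 1 / Real.pi := by
  have hpi := Real.pi_lt_d6
  have hpi0 := Real.pi_pos
  have h1 : (1.6 : ℝ) ≤ Real.exp (1 / 2) := by
    have h2 : (1.6 : ℝ) ^ 2 ≤ Real.exp (1 / 2) ^ 2 := by
      rw [← Real.exp_nat_mul]
      have h3 : ((2 : ℕ) : ℝ) * (1 / 2) = 1 := by norm_num
      rw [h3]
      have := Real.exp_one_gt_d9
      norm_num at this ⊢
      linarith
    exact le_of_sq_le_sq h2 (Real.exp_pos _).le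
  have h4 : Real.exp 1 = Real.exp (1 / 2) * Real.exp (1 / 2) := by
    rw [← Real.exp_add]; norm_num
  rw [le_div_iff₀ hpi0, h4]
  have h5 := Real.exp_pos (1 / 2)
  nlinarith

lemma pow_eq {x : ℝ} (hx : 0 < x) (k : ℕ) : x ^ (4 * k) = x ^ (((8 * k : ℕ) : ℝ) / 2) := by
  rw [← Real.rpow_natCast]
  congr 1
  push_cast
  ring

theorem upper_of_up8 (h : Up8) : Upper := by
  intro ε hε S
  set S' : ℝ := max S 1 with hS'
  have hS1 : 1 ≤ S' := le_max_right _ _
  obtain ⟨K, hK⟩ := eventually_atTop.1 (h ε S' hε hS1)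
  set C : ℝ := (2 * Real.exp 1 / Real.pi * S') ^ (7 / 2 : ℝ) * Real.exp ε with hC
  have hbig : ∀ᶠ n : ℕ in atTop, C ≤ Real.exp (7 * ε / 8 * n) :=
    (Real.tendsto_exp_atTop.comp ((tendsto_natCast_atTop_atTop
      (R := ℝ)).const_mul_atTop (by positivity))).eventually_ge_atTop C
  filter_upwards [hbig, eventually_ge_atTop (8 * K), eventually_gt_atTop 0] with
    n hb hnK hn A hA s hs1 hsS
  have hn0 : (0 : ℝ) < n := by exact_mod_cast hn
  have hs0 : 0 < s := by linarith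
  have hpi := Real.pi_pos
  have he0 := Real.exp_pos 1
  have hVs : 1 ≤ 2 * Real.exp 1 / Real.pi * s := by
    have h1 := V_ge
    have h2 : 1 ≤ Real.exp (1 / 2) := Real.one_le_exp (by norm_num)
    nlinarith
  rcases (minSq_nonneg A).eq_or_lt with hμ | hμ
  · have h0 : nShort A (s * minSq A) = 0 := by
      have he : {w : Fin n → ℤ | w ≠ 0 ∧ ∑ i, (Matrix.mulVec A (fun j => (w j : ℝ))) i ^ 2 < 0} =
          ∅ := by
        ext w
        simp only [Set.mem_setOf_eq, Set.mem_empty_iff_false, iff_false, not_and, not_lt]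
        intro _
        exact normSq_nonneg A w
      unfold nShort
      rw [← hμ, mul_zero, he, Set.ncard_empty]
    rw [h0, Nat.cast_zero]
    positivity
  obtain ⟨k, j, hk, hj, hnk⟩ := exists_dim n
  have hkK : K ≤ k := by omega
  have hB : (ext j A).det ≠ 0 := by
    rw [det_ext]
    exact mul_ne_zero hA (pow_pos (Real.sqrt_pos.2 hμ) j).ne'
  have key : ∀ m : ℕ, m = 8 * k → ∀ B : Matrix (Fin m) (Fin m) ℝ, B.det ≠ 0 →
      (nShort B (s * minSq B) : ℝ) ≤ (2 * Real.exp 1 * s / Real.pi) ^ (4 * k) *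
        Real.exp (ε * k) := by
    rintro m rfl B hB
    exact hK k hkK B hB s hs1 (hsS.trans (le_max_left _ _))
  have h1 := key _ hk (ext j A) hB
  rw [minSq_ext hn] at h1
  have h2 : (nShort A (s * minSq A) : ℝ) ≤ nShort (ext j A) (s * minSq A) := by
    exact_mod_cast nShort_le_ext j A hB (s * minSq A)
  refine (h2.trans h1).trans ?_
  have h3 : 2 * Real.exp 1 * s / Real.pi = 2 * Real.exp 1 / Real.pi * s := by ring
  rw [h3, pow_eq (by positivity)]
  have hkr : ((8 * k : ℕ) : ℝ) ≤ n + 7 := by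
    have : 8 * k ≤ n + 7 := by omega
    exact_mod_cast this
  have h4 : (2 * Real.exp 1 / Real.pi * s) ^ (((8 * k : ℕ) : ℝ) / 2) ≤
      (2 * Real.exp 1 / Real.pi * s) ^ ((n : ℝ) / 2) *
        (2 * Real.exp 1 / Real.pi * S') ^ (7 / 2 : ℝ) := by
    calc (2 * Real.exp 1 / Real.pi * s) ^ (((8 * k : ℕ) : ℝ) / 2)
        ≤ (2 * Real.exp 1 / Real.pi * s) ^ ((n : ℝ) / 2 + 7 / 2) :=
          Real.rpow_le_rpow_of_exponent_le hVs (by linarith)
      _ = (2 * Real.exp 1 / Real.pi * s) ^ ((n : ℝ) / 2) *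
          (2 * Real.exp 1 / Real.pi * s) ^ (7 / 2 : ℝ) := Real.rpow_add (by positivity) _ _
      _ ≤ _ := by
          have h5 : s ≤ S' := hsS.trans (le_max_left _ _)
          gcongr
  have h5 : Real.exp (ε * k) ≤ Real.exp ε * Real.exp (ε / 8 * n) := by
    rw [← Real.exp_add]
    refine Real.exp_le_exp.2 ?_
    have h6 : (8 : ℝ) * k ≤ n + 7 := by
      have := hkr
      push_cast at this
      exact this
    have h7 : (k : ℝ) ≤ 1 + n / 8 := by linarith
    calc ε * k ≤ ε * (1 + n / 8) := by gcongr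
      _ = _ := by ring
  calc (2 * Real.exp 1 / Real.pi * s) ^ (((8 * k : ℕ) : ℝ) / 2) * Real.exp (ε * k)
      ≤ ((2 * Real.exp 1 / Real.pi * s) ^ ((n : ℝ) / 2) *
        (2 * Real.exp 1 / Real.pi * S') ^ (7 / 2 : ℝ)) *
        (Real.exp ε * Real.exp (ε / 8 * n)) := by gcongr
    _ = (2 * Real.exp 1 / Real.pi * s) ^ ((n : ℝ) / 2) * (C * Real.exp (ε / 8 * n)) := by
        rw [hC]; ring
    _ ≤ (2 * Real.exp 1 / Real.pi * s) ^ ((n : ℝ) / 2) *
        (Real.exp (7 * ε / 8 * n) * Real.exp (ε / 8 * n)) := by gcongr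
    _ = (2 * Real.exp 1 / Real.pi * s) ^ ((n : ℝ) / 2) * Real.exp (ε * n) := by
        rw [← Real.exp_add]
        congr 2
        ring

/-- The invariant of the extended lattice. -/
lemma low_inv {c₁ c₂ : ℝ} (h12 : c₂ < c₁) (h1 : 0 < c₁) (h1' : c₁ ≤ 1) :
    ∀ᶠ n : ℕ in atTop, ∀ j : ℕ, j ≤ 7 → ∀ x : ℝ, c₁ * n ≤ x →
      c₂ * (n + j : ℕ) ≤ x ^ ((n : ℝ) / (n + j : ℕ)) := by
  rcases le_or_gt c₂ 0 with h2 | h2
  · filter_upwards with n j _ x hx
    have h3 : (0 : ℝ) ≤ c₁ * n := by positivity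
    have h4 : 0 ≤ x ^ ((n : ℝ) / (n + j : ℕ)) := Real.rpow_nonneg (h3.trans hx) _
    have h5 : c₂ * (n + j : ℕ) ≤ 0 := mul_nonpos_of_nonpos_of_nonneg h2 (Nat.cast_nonneg _)
    linarith
  have hlim1 : Tendsto (fun n : ℕ => Real.exp (-(7 * (Real.log n / n)))) atTop (𝓝 1) := by
    have h3 : Tendsto (fun n : ℕ => Real.log n / n) atTop (𝓝 0) := by
      have := Real.isLittleO_log_id_atTop.tendsto_div_nhds_zero
      exact this.comp tendsto_natCast_atTop_atTop
    have h4 : Tendsto (fun n : ℕ => -(7 * (Real.log n / n))) atTop (𝓝 0) := by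
      have := (h3.const_mul 7).neg
      simpa using this
    have h5 := (Real.continuous_exp.tendsto 0).comp h4
    rw [Real.exp_zero] at h5
    exact h5
  have hlim2 : Tendsto (fun n : ℕ => c₂ * (1 + 7 / (n : ℝ))) atTop (𝓝 c₂) := by
    have h3 : Tendsto (fun n : ℕ => (7 : ℝ) / n) atTop (𝓝 0) :=
      tendsto_const_div_atTop_nhds_zero_nat 7
    have h4 := (h3.const_add 1).const_mul c₂
    simpa using h4
  have hlim3 : Tendsto (fun n : ℕ => c₁ * Real.exp (-(7 * (Real.log n / n)))) atTop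
      (𝓝 c₁) := by
    simpa using hlim1.const_mul c₁
  have hev := hlim2.eventually_lt hlim3 h12
  have hev2 : ∀ᶠ n : ℕ in atTop, 1 ≤ c₁ * (n : ℝ) :=
    ((tendsto_natCast_atTop_atTop (R := ℝ)).const_mul_atTop h1).eventually_ge_atTop 1
  filter_upwards [hev, hev2, eventually_gt_atTop 0] with n h3 h4 hn j hj x hx
  have hn0 : (0 : ℝ) < n := by exact_mod_cast hn
  have hm0 : (0 : ℝ) < (n + j : ℕ) := by positivity
  have hjr : (j : ℝ) ≤ 7 := by exact_mod_cast hj
  have hx0 : 0 < c₁ * n := by linarith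
  have h5 : (c₁ * n) ^ ((n : ℝ) / (n + j : ℕ)) ≤ x ^ ((n : ℝ) / (n + j : ℕ)) :=
    Real.rpow_le_rpow hx0.le hx (by positivity)
  refine le_trans ?_ h5
  have h6 : 1 - 7 / (n : ℝ) ≤ (n : ℝ) / (n + j : ℕ) := by
    rw [le_div_iff₀ hm0]
    push_cast
    have h7 : (1 - 7 / (n : ℝ)) * (n + j) = n + j - 7 - 7 * j / n := by
      field_simp
      ring
    rw [h7]
    have h8 : 0 ≤ 7 * (j : ℝ) / n := by positivity
    linarith
  have h7 : (c₁ * n) ^ (1 - 7 / (n : ℝ)) ≤ (c₁ * n) ^ ((n : ℝ) / (n + j : ℕ)) :=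
    Real.rpow_le_rpow_of_exponent_le h4 h6
  refine le_trans ?_ h7
  have h8 : c₁ * Real.exp (-(7 * (Real.log n / n))) * n ≤ (c₁ * n) ^ (1 - 7 / (n : ℝ)) := by
    rw [sub_eq_add_neg, Real.rpow_add hx0, Real.rpow_one]
    have h9 : Real.exp (-(7 * (Real.log n / n))) ≤ (c₁ * n) ^ (-(7 / (n : ℝ))) := by
      rw [Real.rpow_def_of_pos hx0]
      refine Real.exp_le_exp.2 ?_
      have h10 : Real.log (c₁ * n) ≤ Real.log n := by
        refine Real.log_le_log hx0 ?_
        nlinarith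
      have h11 : Real.log (c₁ * n) * (7 / (n : ℝ)) ≤ Real.log n * (7 / (n : ℝ)) := by gcongr
      calc -(7 * (Real.log n / n)) = -(Real.log n * (7 / (n : ℝ))) := by ring
        _ ≤ -(Real.log (c₁ * n) * (7 / (n : ℝ))) := by linarith
        _ = _ := by ring
    calc c₁ * Real.exp (-(7 * (Real.log n / n))) * n
        = c₁ * n * Real.exp (-(7 * (Real.log n / n))) := by ring
      _ ≤ _ := by gcongr
  refine le_trans ?_ h8
  have h9 : c₂ * (n + j : ℕ) ≤ c₂ * (1 + 7 / (n : ℝ)) * n := by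
    have h10 : c₂ * (1 + 7 / (n : ℝ)) * n = c₂ * (n + 7) := by field_simp
    rw [h10]
    push_cast
    gcongr
  exact h9.trans (mul_le_mul_of_nonneg_right h3.le hn0.le)

theorem lower_of_low8 (h : Low8) : Lower := by
  intro ε S hε hS
  have hpi := Real.pi_pos
  have hpi3 := Real.pi_gt_three
  set e : ℝ := min ε (1 / 2) with hedef
  have he : 0 < e := lt_min hε (by norm_num)
  have heε : e ≤ ε := min_le_left _ _
  have he2 : e ≤ 1 / 2 := min_le_right _ _
  obtain ⟨δ₈, hδ₈, hev⟩ := h e S he hS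
  obtain ⟨K, hK⟩ := eventually_atTop.1 hev
  set δ : ℝ := min (δ₈ / 2) (1 / (2 * Real.pi ^ 2)) with hδdef
  have hδ0 : 0 < δ := lt_min (by positivity) (by positivity)
  have hδ1 : δ ≤ δ₈ / 2 := min_le_left _ _
  have hδ2 : δ ≤ 1 / (2 * Real.pi ^ 2) := min_le_right _ _
  set c₁ : ℝ := 1 / Real.pi ^ 2 - δ with hc₁
  have hc1 : 0 < c₁ := by
    have h1 : 1 / (2 * Real.pi ^ 2) < 1 / Real.pi ^ 2 := by
      apply one_div_lt_one_div_of_lt (by positivity)
      have : 0 < Real.pi ^ 2 := by positivity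
      linarith
    rw [hc₁]
    linarith
  have hc1' : c₁ ≤ 1 := by
    have h1 : 1 / Real.pi ^ 2 ≤ 1 := by
      rw [div_le_one (by positivity)]
      nlinarith
    rw [hc₁]
    linarith
  have hlow := low_inv (c₁ := c₁) (c₂ := 1 / Real.pi ^ 2 - δ₈) (by rw [hc₁]; linarith) hc1 hc1'
  obtain ⟨m, hm⟩ := exists_nat_ge ((1 + ε) * S + 1)
  have hm2 : (1 + ε) * S ≤ (m : ℝ) ^ 2 := by
    have h1 : 0 < (1 + ε) * S := by positivity
    nlinarith
  set C : ℝ := (2 * (m : ℝ) + 1) ^ 7 * Real.exp e with hC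
  have hC1 : 0 < C := by positivity
  have hbig : ∀ᶠ n : ℕ in atTop, 2 * C ≤ Real.exp (e / 8 * n) :=
    (Real.tendsto_exp_atTop.comp ((tendsto_natCast_atTop_atTop
      (R := ℝ)).const_mul_atTop (by positivity))).eventually_ge_atTop _
  refine ⟨δ, hδ0, ?_⟩
  filter_upwards [hbig, hlow, eventually_ge_atTop (8 * K), eventually_gt_atTop 0] with
    n hb hl hnK hn A hA hinv s hs1 hsS
  have hn0 : (0 : ℝ) < n := by exact_mod_cast hn
  have hs0 : 0 < s := by linarith
  have hμ : 0 < minSq A := by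
    rcases (minSq_nonneg A).eq_or_lt with hμ | hμ
    · exfalso
      unfold inv at hinv
      rw [← hμ, zero_div] at hinv
      have : 0 < c₁ * n := by positivity
      linarith
    · exact hμ
  obtain ⟨k, j, hk, hj, hnk⟩ := exists_dim n
  have hkK : K ≤ k := by omega
  have hB : (ext j A).det ≠ 0 := by
    rw [det_ext]
    exact mul_ne_zero hA (pow_pos (Real.sqrt_pos.2 hμ) j).ne'
  have key : ∀ m : ℕ, m = 8 * k → ∀ B : Matrix (Fin m) (Fin m) ℝ, B.det ≠ 0 →
      (1 / Real.pi ^ 2 - δ₈) * (m : ℝ) ≤ inv B →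
      (2 * Real.exp 1 * s / Real.pi) ^ (4 * k) * Real.exp (-(e * k)) ≤
        nShort B ((1 + e) * s * minSq B) := by
    rintro m rfl B hB hB2
    refine hK k hkK B hB ?_ s hs1 hsS
    push_cast at hB2
    exact hB2
  have h1 := key _ hk (ext j A) hB (by
    rw [inv_ext hn j A hA hμ]
    exact hl j hj (inv A) hinv)
  rw [minSq_ext hn] at h1
  have hVs : Real.exp (1 / 2) ≤ 2 * Real.exp 1 / Real.pi * s := by
    have h2 := V_ge
    have h3 := Real.exp_pos (1 / 2)
    nlinarith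
  have hVs1 : 1 ≤ 2 * Real.exp 1 / Real.pi * s :=
    (Real.one_le_exp (by norm_num : (0 : ℝ) ≤ 1 / 2)).trans hVs
  have h3 : 2 * Real.exp 1 * s / Real.pi = 2 * Real.exp 1 / Real.pi * s := by ring
  rw [h3, pow_eq (by linarith)] at h1
  set W : ℝ := 2 * Real.exp 1 / Real.pi * s with hW
  set N : ℝ := (nShort A ((1 + e) * s * minSq A) : ℝ) with hN
  have hN0 : 0 ≤ N := Nat.cast_nonneg _
  have h4 : (nShort (ext j A) ((1 + e) * s * minSq A) : ℝ) ≤ (2 * (m : ℝ) + 1) ^ 7 * (N + 1) := by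
    have h5 := nShort_ext_le j m A hA hμ (t := (1 + e) * s) (le_trans (by gcongr) hm2)
    have h6 : (nShort (ext j A) ((1 + e) * s * minSq A) : ℝ) ≤
        (2 * (m : ℝ) + 1) ^ j * (N + 1) := by
      rw [hN]
      exact_mod_cast h5
    refine h6.trans ?_
    have h7 : (2 * (m : ℝ) + 1) ^ j ≤ (2 * (m : ℝ) + 1) ^ 7 :=
      pow_le_pow_right₀ (by
        have : (0 : ℝ) ≤ m := Nat.cast_nonneg m
        linarith) hj
    gcongr
  have h5 : W ^ ((n : ℝ) / 2) ≤ W ^ (((8 * k : ℕ) : ℝ) / 2) := by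
    refine Real.rpow_le_rpow_of_exponent_le hVs1 ?_
    have : (n : ℝ) ≤ ((8 * k : ℕ) : ℝ) := by exact_mod_cast hnk
    linarith
  have h6 : Real.exp (-(e / 8 * n)) ≤ Real.exp e * Real.exp (-(e * k)) := by
    rw [← Real.exp_add]
    refine Real.exp_le_exp.2 ?_
    have h7 : (8 : ℝ) * k ≤ n + 7 := by
      have : 8 * k ≤ n + 7 := by omega
      exact_mod_cast this
    have h8 : e * (8 * k) ≤ e * (n + 7) := by gcongr
    nlinarith
  have h7 : W ^ ((n : ℝ) / 2) * Real.exp (-(e / 8 * n)) ≤ C * (N + 1) := by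
    calc W ^ ((n : ℝ) / 2) * Real.exp (-(e / 8 * n))
        ≤ W ^ (((8 * k : ℕ) : ℝ) / 2) * (Real.exp e * Real.exp (-(e * k))) := by gcongr
      _ = Real.exp e * (W ^ (((8 * k : ℕ) : ℝ) / 2) * Real.exp (-(e * k))) := by ring
      _ ≤ Real.exp e * ((2 * (m : ℝ) + 1) ^ 7 * (N + 1)) :=
        mul_le_mul_of_nonneg_left (h1.trans h4) (Real.exp_pos _).le
      _ = C * (N + 1) := by rw [hC]; ring
  have h8 : 2 * C ≤ W ^ ((n : ℝ) / 2) * Real.exp (-(e / 8 * n)) := by
    have h9 : Real.exp (1 / 4 * n) ≤ W ^ ((n : ℝ) / 2) := by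
      have h10 : Real.exp (1 / 4 * n) = Real.exp (1 / 2) ^ ((n : ℝ) / 2) := by
        rw [← Real.exp_mul]; congr 1; ring
      rw [h10]
      exact Real.rpow_le_rpow (Real.exp_pos _).le hVs (by positivity)
    calc 2 * C ≤ Real.exp (e / 8 * n) := hb
      _ ≤ Real.exp (1 / 4 * n) * Real.exp (-(e / 8 * n)) := by
        rw [← Real.exp_add]
        refine Real.exp_le_exp.2 ?_
        nlinarith
      _ ≤ _ := by gcongr
  have h9 : W ^ ((n : ℝ) / 2) * Real.exp (-(e / 8 * n)) ≤ 2 * C * N := by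
    have h10 : C * (N + 1) = C * N + C := by ring
    rw [h10] at h7
    linarith
  have h10 : W ^ ((n : ℝ) / 2) * Real.exp (-(e / 4 * n)) ≤ N := by
    have h11 : Real.exp (-(e / 4 * n)) * Real.exp (e / 8 * n) = Real.exp (-(e / 8 * n)) := by
      rw [← Real.exp_add]; congr 1; ring
    have h12 : W ^ ((n : ℝ) / 2) * Real.exp (-(e / 4 * n)) * (2 * C) ≤ N * (2 * C) := by
      calc W ^ ((n : ℝ) / 2) * Real.exp (-(e / 4 * n)) * (2 * C)
          ≤ W ^ ((n : ℝ) / 2) * Real.exp (-(e / 4 * n)) * Real.exp (e / 8 * n) := by gcongr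
        _ = W ^ ((n : ℝ) / 2) * Real.exp (-(e / 8 * n)) := by rw [mul_assoc, h11]
        _ ≤ 2 * C * N := h9
        _ = _ := by ring
    exact le_of_mul_le_mul_right h12 (by positivity)
  have h11 : N ≤ nShort A ((1 + ε) * s * minSq A) := by
    rw [hN]
    refine Nat.cast_le.2 (nShort_mono A hA ?_)
    gcongr
  have h12 : Real.exp (-(ε * n)) ≤ Real.exp (-(e / 4 * n)) := by
    refine Real.exp_le_exp.2 ?_
    have : e / 4 * n ≤ ε * n := by
      gcongr
      linarith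
    linarith
  calc W ^ ((n : ℝ) / 2) * Real.exp (-(ε * n)) ≤ W ^ ((n : ℝ) / 2) * Real.exp (-(e / 4 * n)) := by
        gcongr
    _ ≤ N := h10
    _ ≤ _ := h11

end Pool.Agent.SH
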