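import Pool.Agent.Lib.SH.Asym
import Pool.Agent.Lib.SH.Trans

/-!
Shell counts (MP_ef2672): the upper bound in the dimensions `8 k`.
-/

set_option autoImplicit false

open MeasureTheory Filter Topology
open scoped Real

namespace Pool.Agent.SH

open Pool.Agent.KL Pool.Agent.Lib.MP_ef2672_gt_Tauber

lemma mu_anti (n : ℕ) {R s s' : ℝ} (hR : 0 ≤ R) (h : s ≤ s') : mu n R s' ≤ mu n R s := by
  unfold mu
  refine mul_le_mul_of_nonneg_right (mul_le_mul_of_nonneg_right ?_ (Real.exp_pos _).le)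
    (by positivity)
  refine Real.exp_le_exp.2 (neg_le_neg ?_)
  gcongr

theorem up_n (hG : AsG) (ε S : ℝ) (hε : 0 < ε) (hS : 1 ≤ S) : ∀ᶠ n : ℕ in atTop, Even n →
    ∀ A : Matrix (Fin (4 * n)) (Fin (4 * n)) ℝ, A.det ≠ 0 → ∀ s : ℝ, 1 ≤ s → s ≤ S →
      (nShort A (s * minSq A) : ℝ) ≤ (2 * Real.exp 1 * s / π) ^ (2 * n) * Real.exp (ε * n) := by
  filter_upwards [hG (ε / 2) (by positivity), mu_low (s := S) (by linarith)
    (ξ := ε / 2) (by positivity), eventually_ge_atTop 10] with n h1 h2 hn he A hA s hs1 hsS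
  obtain ⟨ν, F, S', R, T⟩ := test_full hn he
  have hnR : (10 : ℝ) ≤ n := by exact_mod_cast hn
  have hR0 : 0 < R := lt_of_lt_of_le (by positivity) T.Rlow
  obtain ⟨hG1, -⟩ := h1 R T.Rlow T.Rup
  have hmu := (h2 R T.Rup).trans (mu_anti n hR0.le hsS)
  have hm : 0 < minSq A := Pool.Agent.Lib.MP_ef2672_gt_Chain.minSq_pos (by omega) hA
  have hs0 : 0 < s := by linarith
  set W := (finite_short A hA (s * minSq A)).toFinset with hW
  have hmemW : ∀ w ∈ W, w ≠ 0 ∧ normSq A w < s * minSq A := by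
    intro w hw
    rw [hW, Set.Finite.mem_toFinset] at hw
    exact hw
  have hcard : (nShort A (s * minSq A) : ℝ) = W.card := by
    rw [hW]
    exact_mod_cast Set.ncard_eq_toFinset_card _ (finite_short A hA (s * minSq A))
  have hw := weighted hn T A hA W (fun w hw => (hmemW w hw).1) (s := s)
    (fun w hw => (hmemW w hw).2.le)
  have hsum : (W.card : ℝ) * (1 / s) ^ (2 * n) ≤
      ∑ w ∈ W, (minSq A / normSq A w) ^ (2 * n - 1) := by
    rw [← nsmul_eq_mul, ← Finset.sum_const]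
    refine Finset.sum_le_sum fun w hw => ?_
    obtain ⟨hw0, hw1⟩ := hmemW w hw
    have hN : 0 < normSq A w := hm.trans_le (minSq_le A w hw0)
    have h3 : 1 / s ≤ minSq A / normSq A w := by
      rw [div_le_div_iff₀ hs0 hN]
      linarith
    have h4 : 1 / s ≤ 1 := by rwa [div_le_one hs0]
    calc (1 / s) ^ (2 * n) ≤ (1 / s) ^ (2 * n - 1) :=
          pow_le_pow_of_le_one (by positivity) h4 (by omega)
      _ ≤ _ := pow_le_pow_left₀ (by positivity) h3 _
  set K : ℝ := (π / (2 * Real.exp 1)) ^ (2 * n) with hK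
  have hK0 : 0 < K := by positivity
  have e1 := Real.exp_pos (-(ε / 2 * n))
  have h5 : (K * Real.exp (-(ε / 2 * n))) * Real.exp (-(ε / 2 * n)) *
      ((W.card : ℝ) * (1 / s) ^ (2 * n)) ≤ 1 := by
    refine le_trans ?_ hw
    have h6 : 0 ≤ (W.card : ℝ) * (1 / s) ^ (2 * n) := by positivity
    have h7 : 0 ≤ ((2 * n - 1).factorial : ℝ) / R ^ (2 * n - 1) := by positivity
    exact mul_le_mul (mul_le_mul hG1 hmu e1.le h7) hsum h6 (mul_nonneg h7 (mu_nonneg _ _ _))
  rw [hcard]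
  have e2 : Real.exp (-(ε / 2 * n)) * Real.exp (-(ε / 2 * n)) * Real.exp (ε * n) = 1 := by
    rw [← Real.exp_add, ← Real.exp_add]
    have : -(ε / 2 * n) + -(ε / 2 * n) + ε * (n : ℝ) = 0 := by ring
    rw [this, Real.exp_zero]
  have e3 : K * (2 * Real.exp 1 * s / π) ^ (2 * n) = s ^ (2 * n) := by
    rw [hK, ← mul_pow]
    congr 1
    have := Real.exp_pos 1
    field_simp
  have e4 : (1 / s) ^ (2 * n) * s ^ (2 * n) = 1 := by
    rw [← mul_pow, one_div_mul_cancel hs0.ne', one_pow]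
  have hpos : 0 < (2 * Real.exp 1 * s / π) ^ (2 * n) * Real.exp (ε * n) := by positivity
  calc (W.card : ℝ) = (K * Real.exp (-(ε / 2 * n)) * Real.exp (-(ε / 2 * n)) *
        ((W.card : ℝ) * (1 / s) ^ (2 * n))) *
        ((2 * Real.exp 1 * s / π) ^ (2 * n) * Real.exp (ε * n)) := by
        calc (W.card : ℝ) = W.card * 1 * 1 := by ring
          _ = W.card * ((1 / s) ^ (2 * n) * (K * (2 * Real.exp 1 * s / π) ^ (2 * n))) *
              (Real.exp (-(ε / 2 * n)) * Real.exp (-(ε / 2 * n)) * Real.exp (ε * n)) := by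
              rw [e2, e3, e4]
          _ = _ := by ring
    _ ≤ 1 * ((2 * Real.exp 1 * s / π) ^ (2 * n) * Real.exp (ε * n)) :=
        mul_le_mul_of_nonneg_right h5 hpos.le
    _ = _ := one_mul _

/-- **The upper bound.** -/
theorem up8_of (hG : AsG) : Up8 := by
  intro ε S hε hS
  obtain ⟨n0, h⟩ := eventually_atTop.1 (up_n hG (ε / 2) S (by positivity) hS)
  filter_upwards [eventually_ge_atTop n0] with k hk
  have key : ∀ N : ℕ, N = 4 * (2 * k) → ∀ A : Matrix (Fin N) (Fin N) ℝ, A.det ≠ 0 →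
      ∀ s : ℝ, 1 ≤ s → s ≤ S → (nShort A (s * minSq A) : ℝ) ≤
        (2 * Real.exp 1 * s / Real.pi) ^ (4 * k) * Real.exp (ε * k) := by
    intro N hN
    subst hN
    intro A hA s hs1 hsS
    refine (h (2 * k) (by omega) (even_two_mul k) A hA s hs1 hsS).trans (le_of_eq ?_)
    have e1 : 2 * (2 * k) = 4 * k := by ring
    have e2 : ε / 2 * ((2 * k : ℕ) : ℝ) = ε * k := by push_cast; ring
    rw [e1, e2]
  exact key (8 * k) (by ring)

end Pool.Agent.SH
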