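import Pool.Agent.Lib.SH.TestFull
import Pool.Agent.Lib.SH.LPFin
import Pool.Agent.Lib.MP_ef2672_gt_Chain.Entropy

/-!
Shell counts (MP_ef2672): the weighted count of the vectors of a lattice in dimension `4 n`.
-/

set_option autoImplicit false

open MeasureTheory Filter Topology
open scoped Real

namespace Pool.Agent.SH

open Pool.Agent.KL Pool.Agent.Lib.MP_ef2672_gt_Tauber

variable {n : ℕ} {ν : Measure (EuclideanSpace ℝ (Fin (4 * n)))}
  {F : EuclideanSpace ℝ (Fin (4 * n)) → ℝ} {S : ℝ → ℝ} {R : ℝ}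

/-- The test function on `Fin (4 n) → ℝ`. -/
noncomputable def fn (F : EuclideanSpace ℝ (Fin (4 * n)) → ℝ) (z : Fin (4 * n) → ℝ) : ℝ :=
  F (WithLp.toLp 2 z)

lemma fn_posDef (T : Tst n ν F S R) : PosDef (fn F) := by
  have hν := T.fin
  have hm : Measurable (fun w : EuclideanSpace ℝ (Fin (4 * n)) => (WithLp.ofLp w)) :=
    (PiLp.volume_preserving_ofLp (Fin (4 * n))).measurable
  refine ⟨ν.map (fun w => WithLp.ofLp w), inferInstance, fun z => ?_⟩
  rw [integral_map hm.aemeasurable (Continuous.aestronglyMeasurable (by fun_prop))]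
  refine (T.cosT (WithLp.toLp 2 z)).trans ?_
  refine integral_congr_ae (Eventually.of_forall fun w => ?_)
  change Real.cos (inner ℝ w (WithLp.toLp 2 z)) = Real.cos (∑ i, w i * z i)
  rw [PiLp.inner_apply]
  congr 1
  refine Finset.sum_congr rfl fun i _ => ?_
  simp [mul_comm]

lemma fn_integrable (T : Tst n ν F S R) : Integrable (fn F) :=
  (PiLp.volume_preserving_toLp (Fin (4 * n))).integrable_comp_of_integrable T.int

lemma fn_integral : ∫ z, fn F z = ∫ z, F z :=
  (PiLp.volume_preserving_toLp (Fin (4 * n))).integral_comp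
    (MeasurableEquiv.toLp 2 (Fin (4 * n) → ℝ)).measurableEmbedding F

lemma fn_zero : fn F 0 = F 0 := by
  unfold fn
  congr 1

lemma fn_val (T : Tst n ν F S R) {z : Fin (4 * n) → ℝ} {u : ℝ} (hu : ∑ i, z i ^ 2 = u)
    (h0 : 0 < u) : fn F z = (2 * n - 1).factorial / u ^ (2 * n - 1) * S u := by
  have hz : (WithLp.toLp 2 z : EuclideanSpace ℝ (Fin (4 * n))) ≠ 0 := by
    intro h
    have h2 : z = 0 := by
      have := congrArg WithLp.ofLp h
      simpa using this
    rw [h2] at hu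
    simp at hu
    linarith
  have h := T.form _ hz
  rw [norm_toLp_sq, hu] at h
  unfold fn
  have hp : u ^ (2 * n - 1) ≠ 0 := (pow_pos h0 _).ne'
  field_simp
  linarith

lemma sq_smul {N : ℕ} (A : Matrix (Fin N) (Fin N) ℝ) (t : ℝ) (w : Fin N → ℤ) :
    ∑ i, ((t • A).mulVec (fun j => (w j : ℝ))) i ^ 2 = t ^ 2 * normSq A w := by
  unfold normSq
  rw [Finset.mul_sum]
  refine Finset.sum_congr rfl fun i _ => ?_
  rw [Matrix.smul_mulVec, Pi.smul_apply, smul_eq_mul, mul_pow]

/-- The margin of `S` on `[R, R s]`. -/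
noncomputable def mu (n : ℕ) (R s : ℝ) : ℝ :=
  Real.exp (-(1 / √n * (R * s))) * Real.exp (-(4 * √n)) *
    (3 / 32 * (1 / √n * (1 / (10 * n)) * Real.exp (-12)))

lemma mu_nonneg (n : ℕ) (R s : ℝ) : 0 ≤ mu n R s := by
  unfold mu
  positivity

/-- The weighted count. -/
theorem weighted (hn : 10 ≤ n) (T : Tst n ν F S R) (A : Matrix (Fin (4 * n)) (Fin (4 * n)) ℝ)
    (hA : A.det ≠ 0) (W : Finset (Fin (4 * n) → ℤ)) (hW : ∀ w ∈ W, w ≠ 0) {s : ℝ}
    (hs : ∀ w ∈ W, normSq A w ≤ s * minSq A) :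
    ((2 * n - 1).factorial : ℝ) / R ^ (2 * n - 1) * mu n R s *
      ∑ w ∈ W, (minSq A / normSq A w) ^ (2 * n - 1) ≤ 1 := by
  have hm : 0 < minSq A := Pool.Agent.Lib.MP_ef2672_gt_Chain.minSq_pos (by omega) hA
  have hnR : (10 : ℝ) ≤ n := by exact_mod_cast hn
  have hR0 : 0 < R := lt_of_lt_of_le (by positivity) T.Rlow
  set t : ℝ := √(R / minSq A) with ht
  have ht0 : 0 < t := Real.sqrt_pos.2 (div_pos hR0 hm)
  have ht2 : t ^ 2 = R / minSq A := Real.sq_sqrt (div_pos hR0 hm).le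
  have hdet : (t • A).det ≠ 0 := by
    rw [Matrix.det_smul]
    exact mul_ne_zero (pow_ne_zero _ ht0.ne') hA
  have hmin : ∀ w : Fin (4 * n) → ℤ, w ≠ 0 → minSq A ≤ normSq A w := fun w hw => minSq_le A w hw
  have hRu : ∀ w : Fin (4 * n) → ℤ, w ≠ 0 → R ≤ t ^ 2 * normSq A w := by
    intro w hw
    rw [ht2]
    calc R = R / minSq A * minSq A := by field_simp
      _ ≤ _ := mul_le_mul_of_nonneg_left (hmin w hw) (div_pos hR0 hm).le
  have hval : ∀ w : Fin (4 * n) → ℤ, w ≠ 0 →
      fn F ((t • A).mulVec fun j => (w j : ℝ)) =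
        (2 * n - 1).factorial / (t ^ 2 * normSq A w) ^ (2 * n - 1) * S (t ^ 2 * normSq A w) :=
    fun w hw => fn_val T (sq_smul A t w) (lt_of_lt_of_le hR0 (hRu w hw))
  have hmuR : ∀ u, R ≤ u → u ≤ R * s → S u ≤ -mu n R s := by
    intro u hu1 hu2
    refine (T.Sneg u hu1).trans ?_
    rw [neg_le_neg_iff, mu]
    refine mul_le_mul_of_nonneg_right (mul_le_mul_of_nonneg_right ?_ (Real.exp_pos _).le)
      (by positivity)
    refine Real.exp_le_exp.2 (neg_le_neg ?_)
    exact mul_le_mul_of_nonneg_left hu2 (by positivity)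
  have hS0 : ∀ u, R ≤ u → S u ≤ 0 := by
    intro u hu
    refine (T.Sneg u hu).trans ?_
    rw [neg_nonpos]
    positivity
  have hlp := lp_fin (fn_posDef T) (fn_integrable T) (t • A) hdet W
    (fun h => hW 0 h rfl) (fun w hw _ => by
      rw [hval w hw]
      exact mul_nonpos_of_nonneg_of_nonpos
        (div_nonneg (by positivity) (pow_nonneg (hR0.le.trans (hRu w hw)) _)) (hS0 _ (hRu w hw)))
  have hint : 0 ≤ ∫ z, fn F z := by
    rw [fn_integral]
    refine le_trans ?_ T.low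
    positivity
  rw [fn_zero] at hlp
  have h1 : 0 ≤ F 0 + ∑ w ∈ W, fn F ((t • A).mulVec fun j => (w j : ℝ)) := by
    have h2 : 0 < |(t • A).det| := abs_pos.2 hdet
    by_contra hcon
    have := mul_neg_of_pos_of_neg h2 (not_le.1 hcon)
    linarith
  have h2 : ∑ w ∈ W, fn F ((t • A).mulVec fun j => (w j : ℝ)) ≤
      -(((2 * n - 1).factorial : ℝ) / R ^ (2 * n - 1) * mu n R s *
      ∑ w ∈ W, (minSq A / normSq A w) ^ (2 * n - 1)) := by
    rw [Finset.mul_sum, ← Finset.sum_neg_distrib]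
    refine Finset.sum_le_sum fun w hw => ?_
    have hw0 := hW w hw
    have hN : 0 < normSq A w := hm.trans_le (hmin w hw0)
    rw [hval w hw0]
    have hup : t ^ 2 * normSq A w ≤ R * s := by
      rw [ht2]
      calc R / minSq A * normSq A w ≤ R / minSq A * (s * minSq A) :=
            mul_le_mul_of_nonneg_left (hs w hw) (div_pos hR0 hm).le
        _ = R * s := by field_simp
    have h3 := hmuR _ (hRu w hw0) hup
    have hpos : 0 ≤ ((2 * n - 1).factorial : ℝ) / (t ^ 2 * normSq A w) ^ (2 * n - 1) :=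
      div_nonneg (by positivity) (pow_nonneg (hR0.le.trans (hRu w hw0)) _)
    refine (mul_le_mul_of_nonneg_left h3 hpos).trans (le_of_eq ?_)
    have e1 : (t ^ 2 * normSq A w) ^ (2 * n - 1) =
        R ^ (2 * n - 1) / (minSq A / normSq A w) ^ (2 * n - 1) := by
      rw [ht2, ← div_pow]
      congr 1
      field_simp
    rw [e1]
    have h4 : 0 < (minSq A / normSq A w) ^ (2 * n - 1) := pow_pos (div_pos hm hN) _
    have h5 : 0 < R ^ (2 * n - 1) := pow_pos hR0 _
    field_simp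
  have := T.le_one
  linarith

end Pool.Agent.SH
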